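import Pool.Agent.Y221.AH.Im
import Pool.Agent.Y221.FQ.Gen

/-!
Algebraic hyperbolicity, boundedness, grouplessness and general type for finite images of systems
of high powers.
-/

set_option autoImplicit false
set_option maxHeartbeats 400000
set_option linter.overlappingInstances false
set_option linter.unusedSectionVars false

open FF IntermediateField

namespace Pool.Agent.Y221.AH

open Pool.Agent.W602.GT Pool.Agent.W603.LV Pool.Agent.W603.PV Pool.Agent.Y221.FQ
open Pool.Agent.Y221.AB (NB one_le_NB)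
open Pool.Agent.W603.CX (AlgHyperbolic BoundedOnCurves hgt_le_pht)

variable {k : Type} [Field k] [IsAlgClosed k] [CharZero k] {m n M : ℕ} {ι κ μ : Type}
  {Ψ : κ → MvPolynomial (Fin (m + 1)) k} {F : ι → MvPolynomial (Fin (n + 1)) k}
  {Φ : μ → MvPolynomial (Fin (M + 1)) k} {G : Fin (M + 1) → MvPolynomial (Fin (m + 1)) k}
  {B : Fin (n + 1) → MvPolynomial (Fin (m + 1)) k}

/-- For all morphisms of degree at most `r` from a smooth projective curve `C'` (with function field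
`E`) to a smooth projective curve `C` (with function field `K`) and all morphisms from `C'` to the
projective variety `{F = 0}`, the degree of the latter is at most `A max (2 g (C) - 2, 0)`. -/
def CoverHyperbolic (r A : ℕ) (F : ι → MvPolynomial (Fin (n + 1)) k) : Prop :=
  ∀ (K E : Type) [Field K] [Field E] [Algebra k K] [Algebra k E] [Algebra K E]
    [IsScalarTower k K E] [FiniteDimensional K E] [IsFF k K] [IsFF k E],
    Module.finrank K E ≤ r → ∀ f : Fin (n + 1) → E, (∃ j, f j ≠ 0) →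
      (∀ i, MvPolynomial.aeval f (F i) = 0) → pht k f ≤ A * max (canDeg k K) 0

/-- heights of elements of a field generated by one function -/
theorem hgt_sub_ge {K : Type} [Field K] [Algebra k K] [IsFF k K] {T g : K}
    (hT : Transcendental k T) (hg : Transcendental k g) (h : g ∈ k⟮T⟯) : hgt k T ≤ hgt k g := by
  rw [hgt_eq_finrank hT, hgt_eq_finrank hg]
  have hle : k⟮g⟯ ≤ k⟮T⟯ := by
    rw [adjoin_simple_le_iff]
    exact h
  have h1 := relfinrank_mul_finrank_top hle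
  have h2 := IsFF.finite hg
  have h3 : 0 < Module.finrank k⟮g⟯ K := Module.finrank_pos
  rw [← h1]
  have h4 : 0 < relfinrank k⟮g⟯ k⟮T⟯ := by
    rcases Nat.eq_zero_or_pos (relfinrank k⟮g⟯ k⟮T⟯) with h5 | h5
    · rw [← h1, h5, zero_mul] at h3
      exact absurd h3 (lt_irrefl 0)
    · exact h5
  exact_mod_cast Nat.le_mul_of_pos_left _ h4

/-- **Curves from the multiplicative group give curves of unbounded degree.** -/
theorem not_bounded {P : Fin (M + 1) → Polynomial k} (hP : GmCurve Φ P) : ¬ BoundedOnCurves Φ := by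
  intro hb
  have hinf : Infinite k := inferInstance
  obtain ⟨D, hD⟩ := hb (RatFunc k)
  obtain ⟨q, hq⟩ : ∃ q : ℕ, q = D.toNat + 1 := ⟨_, rfl⟩
  have hq0 : q ≠ 0 := by omega
  obtain ⟨T, hTd⟩ : ∃ T : RatFunc k, T = RatFunc.X := ⟨_, rfl⟩
  have hTt : Transcendental k T := hTd ▸ RatFunc.transcendental_X
  have hT0 : T ≠ 0 := by rw [hTd]; exact RatFunc.X_ne_zero
  have hT1 : 1 ≤ hgt k T := by
    by_contra hcon
    obtain ⟨c, hc⟩ := const_of_hgt (k := k) (f := T) (by omega)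
    exact hTt (hc ▸ isAlgebraic_algebraMap c)
  have hTq : Transcendental k (T ^ q) := hTt.pow (by omega)
  -- the curve
  let P' : Fin (M + 1) → Polynomial k := fun j => (P j).comp (Polynomial.X ^ q)
  have hev : ∀ t : k, (fun j => (P' j).eval t) = fun j => (P j).eval (t ^ q) := by
    intro t
    funext j
    simp only [P']
    rw [Polynomial.eval_comp, Polynomial.eval_pow, Polynomial.eval_X]
  let y : Fin (M + 1) → RatFunc k := fun i => algebraMap (Polynomial k) (RatFunc k) (P' i)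
  have hinj : Function.Injective (algebraMap (Polynomial k) (RatFunc k)) :=
    RatFunc.algebraMap_injective k
  have hyT : ∀ j, y j = Polynomial.aeval (T ^ q) (P j) := by
    intro j
    have h1 : T ^ q = algebraMap (Polynomial k) (RatFunc k) (Polynomial.X ^ q) := by
      rw [hTd, map_pow, RatFunc.algebraMap_X]
    rw [h1, Polynomial.aeval_algebraMap_apply]
    simp only [y, P']
    rw [Polynomial.comp_eq_aeval]
  have hmem : ∀ e, val y (Φ e) = 0 := by
    intro e
    obtain ⟨R, hR1, hR2⟩ := val_poly P' (Φ e)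
    have h0 : R = 0 := poly_zero fun t ht => by
      rw [hR1, hev]
      exact hP.mem _ (pow_ne_zero _ ht) e
    rw [← hR2, h0, map_zero]
  obtain ⟨t1, t2, ht1, ht2, hli⟩ := hP.nonconst
  obtain ⟨i, j, hij⟩ : ∃ i j, (P i).eval t1 * (P j).eval t2 ≠ (P j).eval t1 * (P i).eval t2 := by
    by_contra hcon
    push Not at hcon
    obtain ⟨i, hi⟩ := Function.ne_iff.1 (hP.ne t1 ht1)
    rw [LinearIndependent.pair_iff] at hli
    have h3 := hli (-((P i).eval t2)) ((P i).eval t1) (by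
      funext j
      simp only [Pi.add_apply, Pi.smul_apply, smul_eq_mul, Pi.zero_apply]
      linear_combination hcon i j)
    exact hi h3.2
  have hPj : P j ≠ 0 := by
    intro h0
    apply hij
    rw [h0]
    simp
  have hPi : P i ≠ 0 := by
    intro h0
    apply hij
    rw [h0]
    simp
  have hcinj : ∀ p : Polynomial k, Polynomial.aeval (T ^ q) p = 0 → p = 0 := fun p hp =>
    (transcendental_iff_injective.1 hTq) (by rw [hp, map_zero])
  have hyj : y j ≠ 0 := fun h0 => hPj (hcinj _ (by rw [← hyT]; exact h0))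
  have hyi : y i ≠ 0 := fun h0 => hPi (hcinj _ (by rw [← hyT]; exact h0))
  have hg : Transcendental k (y i / y j) := by
    intro halg
    have h2 := IsAlgClosed.degree_eq_one_of_irreducible k (minpoly.irreducible halg.isIntegral)
    obtain ⟨c, hc⟩ := minpoly.mem_range_of_degree_eq_one k _ h2
    have h3 : y i = algebraMap k (RatFunc k) c * y j := by
      have hc' : algebraMap k (RatFunc k) c = y i / y j := hc
      rw [hc']
      field_simp
    have h4 : P i = Polynomial.C c * P j := by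
      have h5 := hcinj (P i - Polynomial.C c * P j) (by
        rw [map_sub, map_mul, Polynomial.aeval_C, ← hyT, ← hyT, h3, sub_self])
      exact sub_eq_zero.1 h5
    apply hij
    rw [h4]
    simp only [Polynomial.eval_mul, Polynomial.eval_C]
    ring
  have hmemk : y i / y j ∈ k⟮T ^ q⟯ := by
    have h1 : ∀ l, y l ∈ k⟮T ^ q⟯ := by
      intro l
      rw [hyT]
      have h2 := (Polynomial.aeval (⟨T ^ q, mem_adjoin_simple_self k (T ^ q)⟩ : k⟮T ^ q⟯) (P l)).2
      rw [Polynomial.aeval_eq_sum_range] at h2 ⊢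
      refine sum_mem fun a _ => ?_
      exact (k⟮T ^ q⟯).smul_mem (_root_.pow_mem (mem_adjoin_simple_self k (T ^ q)) _)
    exact div_mem (h1 i) (h1 j)
  have h1 := hD y ⟨j, hyj⟩ hmem
  have h2 := hgt_le_pht (k := k) y hyi hyj
  have h3 := hgt_sub_ge hTq hg hmemk
  rw [hgt_pow hT0] at h3
  have h4 : (q : ℤ) ≤ q * hgt k T := by nlinarith [(Nat.cast_nonneg q : (0 : ℤ) ≤ q)]
  omega

/-- subvarieties -/
theorem cover_gen (hΨ : ∀ e, IsForm (Ψ e)) (hB : Mor Ψ F B) (hG : Mor Ψ Φ G)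
    (hon : Onto Ψ Φ G) {r s N : ℕ} (hfib : FibresLe Ψ G r) (hF : HighPowers s N F) (hn : 1 ≤ n)
    (hN : n * (4 * 10 ^ s * (r + 1) ^ 7) ≤ N) (hGm : ∀ P, ¬ GmCurve F P) : AllGeneral Φ := by
  obtain ⟨hN2, hN3⟩ := Pool.Agent.Y221.BD.both hn hN
  have hN1 : 1 ≤ N := (one_le_NB r s).trans hN2
  have hx : ∀ x ∈ Cone Ψ, im B x ∈ SpGm F →
      val (im G x) (1 : MvPolynomial (Fin (M + 1)) k) = 0 := by
    intro x _ hBx
    rw [gm_empty hGm] at hBx
    exact absurd hBx (Set.notMem_empty _)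
  have hform : IsForm (1 : MvPolynomial (Fin (M + 1)) k) := ⟨0, MvPolynomial.isHomogeneous_one _ _⟩
  intro K _ _ w z hw hz
  by_contra hgt
  have h1 := sub_van hΨ hB hG hon hfib hF hN1 hN3 hw hz hgt hform hx
  have h2 : val z (1 : MvPolynomial (Fin (M + 1)) k) = 1 := map_one _
  rw [h2] at h1
  exact one_ne_zero h1

theorem bounds {n s r N : ℕ} (hn : 1 ≤ n) (hN : n * (4 * 10 ^ s * (r + 1) ^ 7) ≤ N) :
    1 ≤ N ∧ n * ((s + 1) * ((s - 1) * (s - 2) / 2)) ≤ N ∧ NB r s ≤ N := by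
  obtain ⟨hN2, hN3⟩ := Pool.Agent.Y221.BD.both hn hN
  refine ⟨(one_le_NB r s).trans hN2, ?_, hN2⟩
  refine le_trans (Nat.mul_le_mul_left _ ?_) hN
  have h1 := Pool.Agent.Y221.BD.cubic_le s
  calc (s + 1) * ((s - 1) * (s - 2) / 2) ≤ (s + 4) * ((s - 1) * (s - 2) / 2) :=
        Nat.mul_le_mul_right _ (by omega)
    _ ≤ 4 * 10 ^ s := h1
    _ ≤ 4 * 10 ^ s * (r + 1) ^ 7 := Nat.le_mul_of_pos_right _ (by positivity)

theorem hyp_of_cover [Finite ι] (hΨ : ∀ e, IsForm (Ψ e)) (hB : Mor Ψ F B) (hG : Mor Ψ Φ G)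
    (hon : Onto Ψ Φ G) {r s N : ℕ} (hfib : FibresLe Ψ G r) (hF : HighPowers s N F) (hn : 1 ≤ n)
    (hN : n * (4 * 10 ^ s * (r + 1) ^ 7) ≤ N) (hGm : ∀ P, ¬ GmCurve F P) :
    (∃ A : ℕ, AlgHyperbolic A Φ) ∧ AllGeneral Φ := by
  obtain ⟨h1, h2, h3⟩ := bounds hn hN
  exact ⟨cover_hyp hΨ hB hG hon hfib hF (by omega) h1 h2 h3 hGm,
    cover_gen hΨ hB hG hon hfib hF hn hN hGm⟩

theorem im_Xk {K : Type} [Field K] [Algebra k K] (x : Fin (n + 1) → K) :
    im (fun i => (MvPolynomial.X i : MvPolynomial (Fin (n + 1)) k)) x = x := by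
  funext i
  exact MvPolynomial.aeval_X _ i

theorem mor_Xk : Mor F F fun i => MvPolynomial.X i :=
  ⟨⟨1, le_rfl, fun j => MvPolynomial.isHomogeneous_X k j⟩, fun x hx => by rw [im_Xk]; exact hx⟩

/-- **Covers of curves.** -/
theorem cover_iff [Finite ι] {r s N : ℕ} (hr : 1 ≤ r) (hF : HighPowers s N F) (hn : 1 ≤ n)
    (hN : n * (4 * 10 ^ s * (r + 1) ^ 7) ≤ N) :
    (∃ A, CoverHyperbolic r A F) ↔ ∀ P, ¬ GmCurve F P := by
  obtain ⟨h1, h2, h3⟩ := bounds hn hN
  constructor
  · rintro ⟨A, hA⟩ P hP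
    refine not_bounded hP fun K _ _ _ => ⟨A * max (canDeg k K) 0, fun f hf0 hf => ?_⟩
    exact hA K K (by rw [Module.finrank_self]; exact hr) f hf0 hf
  · exact fun h => high_maps hF (by omega) h1 h2 h3 h

/-- **The five conditions.** -/
theorem tfae_im [Finite ι] {G : Fin (M + 1) → MvPolynomial (Fin (n + 1)) k}
    (hΦ : ∀ e, IsForm (Φ e)) (hG : Mor F Φ G) (hon : Onto F Φ G) {r s N : ℕ}
    (hfib : FibresLe F G r) (hF : HighPowers s N F) (hn : 1 ≤ n)
    (hN : n * (4 * 10 ^ s * (r + 1) ^ 7) ≤ N) :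
    [∃ A : ℕ, AlgHyperbolic A Φ, BoundedOnCurves Φ, ∀ P, ¬ GmCurve Φ P, AllGeneral Φ,
      ∀ P, ¬ GmCurve F P].TFAE := by
  have h0 : (∀ P, ¬ GmCurve F P) → (∃ A : ℕ, AlgHyperbolic A Φ) ∧ AllGeneral Φ :=
    hyp_of_cover (B := fun i => MvPolynomial.X i) hF.form mor_Xk hG hon hfib hF hn hN
  tfae_have 5 → 1 := fun h => (h0 h).1
  tfae_have 5 → 4 := fun h => (h0 h).2
  tfae_have 1 → 2 := by
    rintro ⟨A, hA⟩ K _ _ _
    exact ⟨_, fun f hf0 hf => hA K f hf0 hf⟩
  tfae_have 2 → 3 := fun h P hP => not_bounded hP h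
  tfae_have 3 → 5 := fun h P hP => h _ (gm_im hF.form hG hP)
  tfae_have 4 → 3 := by
    intro h P hP
    have h1 : (fun i => (P i).eval 1) ∈ SpGm Φ :=
      ⟨⟨hP.ne 1 one_ne_zero, hP.mem 1 one_ne_zero⟩, fun H _ hH => hH P hP 1 one_ne_zero⟩
    have h2 := (gm_sub_alg hΦ h1).2 1 ⟨0, MvPolynomial.isHomogeneous_one _ _⟩
      fun K _ _ w y hw hy hgt => absurd (h K w y hw hy) hgt
    have h3 : val (fun i => (P i).eval 1) (1 : MvPolynomial (Fin (M + 1)) k) = 1 := map_one _
    rw [h3] at h2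
    exact one_ne_zero h2
  tfae_finish

end Pool.Agent.Y221.AH
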