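import Pool.Agent.Y221.AH.Circ
import Pool.Agent.Y221.AB.Ab2
import Pool.Agent.W603.LV.Blk2
import Pool.Agent.W603.CX.Basic

/-!
Blocks of vanishing sums of high powers, over extensions of bounded degree.
-/

set_option autoImplicit false
set_option maxHeartbeats 400000
set_option linter.overlappingInstances false
set_option linter.unusedSectionVars false

open FF Pool.Agent.W603.LV Pool.Agent.W603.PV Polynomial IntermediateField
open Pool.Agent.Y221.AB (Nbd Nb NB Nbd_le Nb_le_NB one_le_NB)

namespace Pool.Agent.Y221.AH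

variable {k K E : Type} [Field k] [Field K] [Field E] [Algebra k K] [Algebra k E] [Algebra K E]
  [IsScalarTower k K E] [FiniteDimensional K E] [CharZero k]

/-- a primitive element which is a linear combination over the constants -/
theorem exists_lin_prim {m : ℕ} (β : Fin (m + 1) → E) :
    ∃ s : Fin (m + 1) → k, ∀ j, β j ∈ K⟮∑ j, algebraMap k E (s j) * β j⟯ := by
  classical
  have hK : CharZero K := charZero_of_injective_algebraMap (algebraMap k K).injective
  let ρ : ℕ → E := fun t => ∑ j : Fin (m + 1), algebraMap k E ((t : k) ^ (j : ℕ)) * β j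
  have hfin : Finite (IntermediateField K E) :=
    Field.finite_intermediateField_of_exists_primitive_element K E
      (Field.exists_primitive_element K E)
  obtain ⟨F₀, hF₀⟩ := Finite.exists_infinite_fiber fun t : ℕ => K⟮ρ t⟯
  let em := Infinite.natEmbedding ((fun t : ℕ => K⟮ρ t⟯) ⁻¹' {F₀})
  let t : Fin (m + 1) → ℕ := fun i => (em i : ℕ)
  have ht : ∀ i, K⟮ρ (t i)⟯ = F₀ := fun i => (em i).2
  have htinj : Function.Injective t := by
    intro i j h
    have h1 := em.injective (Subtype.ext h)
    exact Fin.ext h1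
  let V : Matrix (Fin (m + 1)) (Fin (m + 1)) k := Matrix.vandermonde fun i => (t i : k)
  have hV : V.det ≠ 0 := by
    rw [Matrix.det_vandermonde_ne_zero_iff]
    intro i j h
    have h1 : ((t i : ℕ) : k) = ((t j : ℕ) : k) := h
    exact htinj (by exact_mod_cast h1)
  have hmem : ∀ i, ρ (t i) ∈ F₀ := by
    intro i
    rw [← ht i]
    exact mem_adjoin_simple_self K _
  have hβ : ∀ j, β j = ∑ i, algebraMap k E (V⁻¹ j i) * ρ (t i) := by
    intro j
    have h1 : V⁻¹ * V = 1 := Matrix.nonsing_inv_mul V (isUnit_iff_ne_zero.2 hV)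
    have h2 : ∑ i, algebraMap k E (V⁻¹ j i) * ρ (t i) =
        ∑ l, algebraMap k E ((V⁻¹ * V) j l) * β l := by
      simp only [ρ, Finset.mul_sum]
      rw [Finset.sum_comm]
      refine Finset.sum_congr rfl fun l _ => ?_
      rw [Matrix.mul_apply, map_sum, Finset.sum_mul]
      refine Finset.sum_congr rfl fun i _ => ?_
      rw [map_mul, mul_assoc]
      rfl
    rw [h2, h1, Finset.sum_eq_single j]
    · rw [Matrix.one_apply_eq, map_one, one_mul]
    · intro l _ hl
      rw [Matrix.one_apply_ne (Ne.symm hl), map_zero, zero_mul]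
    · intro h
      exact absurd (Finset.mem_univ j) h
  refine ⟨fun j => ((t 0 : ℕ) : k) ^ (j : ℕ), fun j => ?_⟩
  change β j ∈ K⟮ρ (t 0)⟯
  rw [ht 0, hβ j]
  refine sum_mem fun i _ => mul_mem ?_ (hmem i)
  rw [IsScalarTower.algebraMap_apply k K E]
  exact F₀.algebraMap_mem _

variable [IsAlgClosed k] [IsFF k K] [IsFF k E]

/-- **The height inequality**, over an arbitrary extension. -/
theorem circ {m q : ℕ} {β : Fin (m + 1) → E} (h0 : β 0 = 1) (hβ0 : ∀ j, β j ≠ 0)
    (hq : Nb (Module.finrank K E) m ≤ q) (hsum : ∑ j, β j ^ q = 0)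
    (hli : LinearIndependent k fun l => β ((Fin.last m).succAbove l) ^ q) :
    pht k β ≤ Module.finrank K E * tri m * canDeg k K := by
  classical
  have hK : CharZero K := charZero_of_injective_algebraMap (algebraMap k K).injective
  obtain ⟨s, hs⟩ := exists_lin_prim (K := K) (k := k) β
  obtain ⟨ρ, hρ⟩ : ∃ ρ : E, ρ = ∑ j, algebraMap k E (s j) * β j := ⟨_, rfl⟩
  rw [← hρ] at hs
  have hint : IsIntegral K ρ := Algebra.IsIntegral.isIntegral ρ
  let b : Fin (m + 1) → K⟮ρ⟯ := fun j => ⟨β j, hs j⟩
  have hfd : FiniteDimensional K K⟮ρ⟯ := adjoin.finiteDimensional hint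
  have hff : IsFF k K⟮ρ⟯ := isFF_of_finite (F := K)
  have hfd2 : FiniteDimensional K⟮ρ⟯ E := FiniteDimensional.right K K⟮ρ⟯ E
  let pb : PowerBasis K K⟮ρ⟯ := adjoin.powerBasis hint
  have hgen : (pb.gen : E) = ρ := rfl
  have hfd3 : FiniteDimensional K (normalClosure K K⟮ρ⟯ (AlgebraicClosure K)) :=
    normalClosure.is_finiteDimensional K K⟮ρ⟯ (AlgebraicClosure K)
  have hff3 : IsFF k (normalClosure K K⟮ρ⟯ (AlgebraicClosure K)) := isFF_of_finite (F := K)
  have hst : IsScalarTower k K⟮ρ⟯ E := IsScalarTower.of_algebraMap_eq fun c => rfl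
  have h1 := circ_N (N := normalClosure K K⟮ρ⟯ (AlgebraicClosure K)) (emb_closure K K⟮ρ⟯) pb
    (m := m) (q := q) (β := b) (Subtype.ext h0)
    (fun j h => hβ0 j (congrArg Subtype.val h)) (s := s) (by
      apply Subtype.ext
      refine hgen.trans (hρ.trans ?_)
      refine Eq.trans ?_ (AddSubmonoidClass.coe_finsetSum _ _).symm
      rfl)
    ((Nbd_le (by
      rw [← pb.finrank]
      exact Submodule.finrank_le (K⟮ρ⟯).toSubmodule)).trans hq)
    (by
      apply Subtype.ext
      rw [AddSubmonoidClass.coe_finsetSum]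
      exact hsum)
    (by
      rw [Fintype.linearIndependent_iff] at hli ⊢
      intro c hc
      apply hli c
      have h1 := congrArg (Subtype.val : K⟮ρ⟯ → E) hc
      rw [AddSubmonoidClass.coe_finsetSum] at h1
      exact h1)
  have h2 : pht k β = Module.finrank K⟮ρ⟯ E * pht k b :=
    pht_algebraMap (K := K⟮ρ⟯) (L := E) (f := b) ⟨0, fun h => hβ0 0 (congrArg Subtype.val h)⟩
  rw [h2, ← Module.finrank_mul_finrank K K⟮ρ⟯ E, pb.finrank]
  refine (mul_le_mul_of_nonneg_left h1 (by positivity)).trans (le_of_eq ?_)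
  push_cast
  ring

/-- **Blocks.** -/
theorem blocks {J : Type} [Fintype J] {N s r : ℕ} (hr : Module.finrank K E ≤ r)
    (hs : Fintype.card J ≤ s) (hN : NB r s ≤ N) (g : J → E)
    (hg0 : ∀ j, g j ≠ 0) (hrel : ∑ j, g j = 0)
    (hg : ∀ j, ∃ (c : k) (w : E), g j = algebraMap k E c * w ^ N) :
    ∃ R : J → J → Prop, Equivalence R ∧
      (∀ i j, R i j → hgt k (g i / g j) ≤ s * (N * (r * tri s * max (canDeg k K) 0))) ∧
      ∀ (j0 : J) (A : Finset J), (∀ j, j ∈ A ↔ R j0 j) → ∑ j ∈ A, g j = 0 := by
  classical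
  choose c w hcw using hg
  have hN0 : 0 < N := lt_of_lt_of_le (one_le_NB r s) hN
  set χ : ℤ := max (canDeg k K) 0 with hχ
  have hχ0 : 0 ≤ χ := le_max_right _ _
  set B : ℤ := N * (r * tri s * χ) with hB
  have hB0 : 0 ≤ B :=
    mul_nonneg (by positivity) (mul_nonneg (mul_nonneg (by positivity) (tri_nonneg s)) hχ0)
  let G : SimpleGraph J :=
    { Adj := fun i j => i ≠ j ∧ hgt k (g i / g j) ≤ B
      symm := by
        refine ⟨?_⟩
        rintro i j ⟨h1, h2⟩
        refine ⟨h1.symm, ?_⟩
        rw [← hgt_inv, inv_div]; exact h2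
      loopless := ⟨fun i h => h.1 rfl⟩ }
  have hwalk : ∀ (i j : J) (p : G.Walk i j), hgt k (g i / g j) ≤ p.length * B := by
    intro i j p
    induction p with
    | nil =>
      rw [div_self (hg0 _), hgt_one]; simp
    | cons h p ih =>
      rename_i u v w
      rw [SimpleGraph.Walk.length_cons]
      have h1 : g u / g w = (g u / g v) * (g v / g w) := by
        have := hg0 v
        have := hg0 w
        field_simp
      rw [h1]
      have h2 := hgt_mul (k := k) (div_ne_zero (hg0 u) (hg0 v)) (div_ne_zero (hg0 v) (hg0 w))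
      have h3 := h.2
      push_cast
      linarith
  refine ⟨G.Reachable, G.reachable_is_equivalence, ?_, ?_⟩
  · intro i j hij
    obtain ⟨p, hp⟩ := hij.exists_isPath
    have h1 := hwalk i j p
    have h2 : p.length ≤ s := by
      have := hp.length_lt
      omega
    refine h1.trans ?_
    have h3 : (p.length : ℤ) ≤ s := by exact_mod_cast h2
    exact mul_le_mul_of_nonneg_right h3 hB0
  · intro j0 A hA
    have key := class_sum (k := k) g G.Reachable G.reachable_is_equivalence (by
      intro m e he a ha hrel' hlin i j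
      by_cases hij : e i = e j
      · rw [hij]
      apply SimpleGraph.Adj.reachable
      refine ⟨hij, ?_⟩
      have hm : m + 1 ≤ s := by
        have := Fintype.card_le_of_injective e he
        simp only [Fintype.card_fin] at this
        omega
      -- roots
      have hroot : ∀ i, ∃ z : k, z ^ N = a i * c (e i) := fun i =>
        IsAlgClosed.exists_pow_nat_eq _ hN0
      choose μ hμ using hroot
      have hterm : ∀ i, (algebraMap k E (μ i) * w (e i)) ^ N = a i • g (e i) := by
        intro i
        rw [mul_pow, ← map_pow, hμ, map_mul, Algebra.smul_def, hcw (e i)]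
        ring
      have hz0 : ∀ i, algebraMap k E (μ i) * w (e i) ≠ 0 := by
        intro i h
        have h1 := hterm i
        rw [h, zero_pow hN0.ne'] at h1
        exact smul_ne_zero (ha i) (hg0 _) h1.symm
      obtain ⟨q, hq⟩ : ∃ q : E, q = algebraMap k E (μ 0) * w (e 0) := ⟨_, rfl⟩
      have hq0 : q ≠ 0 := by rw [hq]; exact hz0 0
      let β : Fin (m + 1) → E := fun i => algebraMap k E (μ i) * w (e i) / q
      have hβN : ∀ i, β i ^ N = (q ^ N)⁻¹ * (a i • g (e i)) := by
        intro i
        simp only [β]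
        rw [div_pow, hterm, div_eq_inv_mul]
      have h1 := circ (K := K) (k := k) (m := m) (q := N) (β := β)
        (by simp only [β]; rw [← hq, div_self hq0]) (fun i => div_ne_zero (hz0 i) hq0)
        ((Nb_le_NB hr (show m < s by omega)).trans hN)
        (by
          rw [Finset.sum_congr rfl fun i _ => hβN i, ← Finset.mul_sum, hrel', mul_zero])
        (by
          have h2 : (fun l => β ((Fin.last m).succAbove l) ^ N) = fun l =>
              (LinearMap.mulLeft k (q ^ N)⁻¹) (a ((Fin.last m).succAbove l) •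
                g (e ((Fin.last m).succAbove l))) := by
            funext l
            rw [hβN]
            rfl
          rw [h2]
          refine hlin.map' (LinearMap.mulLeft k (q ^ N)⁻¹) ?_
          rw [LinearMap.ker_eq_bot]
          exact mul_right_injective₀ (inv_ne_zero (pow_ne_zero _ hq0)))
      have h3 : hgt k (g (e i) / g (e j)) = N * hgt k (β i / β j) := by
        rw [← hgt_pow (div_ne_zero (div_ne_zero (hz0 i) hq0) (div_ne_zero (hz0 j) hq0)), div_pow,
          hβN, hβN, mul_div_mul_left _ _ (inv_ne_zero (pow_ne_zero _ hq0))]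
        refine hgt_congr fun P => ?_
        rw [P.ord_div (hg0 _) (hg0 _), P.ord_div (smul_ne_zero (ha i) (hg0 _))
          (smul_ne_zero (ha j) (hg0 _)), ord_smul P (ha i), ord_smul P (ha j)]
      rw [h3, hB]
      refine mul_le_mul_of_nonneg_left ?_ (by positivity)
      refine (Pool.Agent.W603.CX.hgt_le_pht β (div_ne_zero (hz0 i) hq0)
        (div_ne_zero (hz0 j) hq0)).trans (h1.trans ?_)
      have h4 : (Module.finrank K E : ℤ) * tri m ≤ r * tri s :=
        mul_le_mul (by exact_mod_cast hr) (tri_mono (by omega)) (tri_nonneg _) (by positivity)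
      have h5 : canDeg k K ≤ χ := le_max_left _ _
      have h6 : (0 : ℤ) ≤ (Module.finrank K E : ℤ) * tri m :=
        mul_nonneg (by positivity) (tri_nonneg m)
      exact (mul_le_mul_of_nonneg_left h5 h6).trans (mul_le_mul_of_nonneg_right h4 hχ0))
      (Finset.univ.filter fun j => (fun _ : J => (1 : k)) j ≠ 0).card (fun _ => 1) le_rfl
      (by simpa using hrel) j0
    simp only [one_smul] at key
    rw [← key]
    exact Finset.sum_congr (by ext j; simp [hA]) (fun _ _ => rfl)

end Pool.Agent.Y221.AH
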