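import Pool.Agent.Y221.AH.Hp
import Pool.Agent.Y221.AB.Main

/-!
Sums of high powers which vanish: the height of the bases is bounded linearly in the genus of the
base curve.
-/

set_option autoImplicit false
set_option maxHeartbeats 400000
set_option linter.overlappingInstances false
set_option linter.unusedSectionVars false

open FF Pool.Agent.W603.LV Pool.Agent.W603.PV Polynomial IntermediateField
open Pool.Agent.Y221.AB (E4 pn an Nbd)

namespace Pool.Agent.Y221.AH

/-- the members of the family -/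
noncomputable def fam {K K₁ : Type} [Field K] [Field K₁] [Algebra K K₁] [FiniteDimensional K K₁]
    (pb : PowerBasis K K₁) {m : ℕ} (β : Fin (m + 1) → K₁) :
    Fin pb.dim ⊕ (Fin (m + 1) × Fin pb.dim) → K
  | Sum.inl i => (minpoly K pb.gen).coeff i
  | Sum.inr x => dsc pb * pb.basis.repr (β x.1) x.2

variable {k K K₁ N : Type} [Field k] [Field K] [Field K₁] [Field N] [Algebra k K] [Algebra k K₁]
  [Algebra K K₁] [IsScalarTower k K K₁] [Algebra k N] [Algebra K N] [IsScalarTower k K N]
  [FiniteDimensional K K₁] [FiniteDimensional K N] [CharZero K] [IsAlgClosed k] [CharZero k]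
  [IsFF k K] [IsFF k K₁] [IsFF k N]

/-- the height of a conjugate -/
theorem pht_emb (σ : K₁ →ₐ[K] N) {n : ℕ} {f : Fin (n + 1) → K₁} (hf : ∃ j, f j ≠ 0) :
    Module.finrank K K₁ * pht k (fun j => σ (f j)) = Module.finrank K N * pht k f := by
  let _ : Algebra K₁ N := σ.toRingHom.toAlgebra
  have h1 : IsScalarTower K K₁ N := IsScalarTower.of_algebraMap_eq fun x => by
    change algebraMap K N x = σ (algebraMap K K₁ x)
    rw [AlgHom.commutes]
  have h2 : IsScalarTower k K₁ N := IsScalarTower.of_algebraMap_eq fun x => by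
    change algebraMap k N x = σ (algebraMap k K₁ x)
    rw [map_const]
  have h3 : FiniteDimensional K₁ N := FiniteDimensional.right K K₁ N
  have h4 := pht_algebraMap (k := k) (K := K₁) (L := N) hf
  have h5 : pht k (fun j => σ (f j)) = Module.finrank K₁ N * pht k f := h4
  rw [h5, ← Module.finrank_mul_finrank K K₁ N]
  push_cast
  ring

/-- the total loss at a place -/
noncomputable def MP (P : Place k N) (pb : PowerBasis K K₁) {m : ℕ} (β : Fin (m + 1) → K₁) : ℤ :=
  ∑ x, max (-P.ord (algebraMap K N (fam pb β x))) 0 +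
    max (-P.ord (algebraMap K N (dsc pb)⁻¹)) 0

theorem MP_ram (P : Place k N) (pb : PowerBasis K K₁) {m : ℕ} (β : Fin (m + 1) → K₁) :
    MP P pb β = 0 ∨ (ram K P : ℤ) ≤ MP P pb β := by
  have hr : (0 : ℤ) < ram K P := by exact_mod_cast (ram_spec (F := K) P).1
  have h1 : ∀ y : K, max (-P.ord (algebraMap K N y)) 0 = ram K P * max (-(under K P).ord y) 0 := by
    intro y
    rw [ord_under, mul_max_of_nonneg _ _ hr.le, mul_zero, mul_neg]
  have h2 : MP P pb β = ram K P * (∑ x, max (-(under K P).ord (fam pb β x)) 0 +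
      max (-(under K P).ord (dsc pb)⁻¹) 0) := by
    unfold MP
    rw [mul_add, Finset.mul_sum, h1]
    congr 1
    exact Finset.sum_congr rfl fun x _ => h1 _
  have h3 : 0 ≤ (∑ x, max (-(under K P).ord (fam pb β x)) 0 +
      max (-(under K P).ord (dsc pb)⁻¹) 0) :=
    add_nonneg (Finset.sum_nonneg fun _ _ => le_max_right _ _) (le_max_right _ _)
  rw [h2]
  rcases h3.eq_or_lt with h | h
  · left
    rw [← h, mul_zero]
  · right
    nlinarith

theorem ge_fam (P : Place k N) (pb : PowerBasis K K₁) {m : ℕ} (β : Fin (m + 1) → K₁)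
    (x : Fin pb.dim ⊕ (Fin (m + 1) × Fin pb.dim)) :
    Ge P (-MP P pb β) (algebraMap K N (fam pb β x)) := by
  right
  have h1 := Finset.single_le_sum
    (f := fun x => max (-P.ord (algebraMap K N (fam pb β x))) 0)
    (fun x _ => le_max_right _ _) (Finset.mem_univ x)
  have h2 := le_max_left (-P.ord (algebraMap K N (fam pb β x))) 0
  have h3 := le_max_right (-P.ord (algebraMap K N (dsc pb)⁻¹)) 0
  unfold MP
  omega

theorem ge_dinv (P : Place k N) (pb : PowerBasis K K₁) {m : ℕ} (β : Fin (m + 1) → K₁) :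
    Ge P (-MP P pb β) (algebraMap K N (dsc pb)⁻¹) := by
  right
  have h1 : 0 ≤ ∑ x, max (-P.ord (algebraMap K N (fam pb β x))) 0 :=
    Finset.sum_nonneg fun _ _ => le_max_right _ _
  have h2 := le_max_left (-P.ord (algebraMap K N (dsc pb)⁻¹)) 0
  unfold MP
  omega

theorem MP_nonneg (P : Place k N) (pb : PowerBasis K K₁) {m : ℕ} (β : Fin (m + 1) → K₁) :
    0 ≤ MP P pb β := add_nonneg (Finset.sum_nonneg fun _ _ => le_max_right _ _) (le_max_right _ _)

theorem ge_coeff (P : Place k N) (pb : PowerBasis K K₁) {m : ℕ} (β : Fin (m + 1) → K₁) (i : ℕ) :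
    Ge P (-MP P pb β) (algebraMap K N ((minpoly K pb.gen).coeff i)) := by
  have hdeg : (minpoly K pb.gen).natDegree = pb.dim := pb.natDegree_minpoly
  have hM := MP_nonneg P pb β
  rcases lt_trichotomy i pb.dim with h1 | h1 | h1
  · exact ge_fam P pb β (Sum.inl ⟨i, h1⟩)
  · have h2 := (minpoly.monic pb.isIntegral_gen).coeff_natDegree
    rw [hdeg, ← h1] at h2
    rw [h2, map_one]
    exact Ge.one.mono (by omega)
  · rw [coeff_eq_zero_of_natDegree_lt (by omega), map_zero]
    exact Ge.zero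

theorem circ_arith {q m' n' H M c A a b : ℤ} (hH : 0 ≤ H) (h1 : q * H ≤ A * M + c)
    (hM : M ≤ b * (a * H)) (hA : 0 ≤ A) (hq : a * (A * b + 1) ≤ q) (ha : 1 ≤ a)
    (hc : c = m' * n') : H ≤ m' * n' := by
  have h2 : A * M ≤ A * (b * (a * H)) := mul_le_mul_of_nonneg_left hM hA
  have h3 : a * (A * b + 1) * H ≤ q * H := mul_le_mul_of_nonneg_right hq hH
  have h4 : a * (A * b + 1) * H = A * (b * (a * H)) + a * H := by ring
  have h5 : H ≤ a * H := by nlinarith
  linarith

/-- **The height inequality.** -/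
theorem circ_N (hE : Emb K K₁ N) (pb : PowerBasis K K₁) {m q : ℕ}
    {β : Fin (m + 1) → K₁} (h0 : β 0 = 1) (hβ0 : ∀ j, β j ≠ 0) {s : Fin (m + 1) → k}
    (hs : pb.gen = ∑ j, algebraMap k K₁ (s j) * β j) (hq : Nbd pb.dim m ≤ q)
    (hsum : ∑ j, β j ^ q = 0)
    (hli : LinearIndependent k fun l => β ((Fin.last m).succAbove l) ^ q) :
    pht k β ≤ pb.dim * tri m * canDeg k K := by
  classical
  obtain ⟨D, hD⟩ := exists_der (k := k) (K := K)
  obtain ⟨D₁, hD₁⟩ := exists_ext_der (k := k) (L := K₁) D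
  have hD₁0 : D₁ ≠ 0 := by
    rintro rfl
    apply hD
    ext x
    have h1 := hD₁ x
    rw [Derivation.coe_zero, Pi.zero_apply, eq_comm, map_eq_zero] at h1
    rw [h1]
    rfl
  have hW := wr_ne_zero hD₁0 _ hli
  obtain ⟨W, hWd⟩ : ∃ W, W = algebraMap K N (Algebra.norm K (wr D₁ fun l =>
      β ((Fin.last m).succAbove l) ^ q)) := ⟨_, rfl⟩
  have hmq : m ≤ q := by
    unfold Nbd at hq
    omega
  -- a large set of places
  obtain ⟨T1, hT1⟩ := exists_supp (k := k) (Finset.univ : Finset ((K₁ →ₐ[K] N) × Fin (m + 1)))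
    (fun x => x.1 (β x.2))
  obtain ⟨T2, hT2⟩ := exists_supp (k := k) Finset.univ
    (fun j => algebraMap K N (Algebra.norm K (β j)))
  obtain ⟨T3, hT3⟩ := exists_supp (k := k) Finset.univ
    (fun x => algebraMap K N (fam pb β x))
  obtain ⟨T4, hT4⟩ := exists_supp (k := k) (Finset.univ : Finset (Fin 2))
    ![W, algebraMap K N (dsc pb)⁻¹]
  obtain ⟨T5, hT5⟩ := exists_over (L := N) (vo_finite hD).toFinset
  set T : Finset (Place k N) := T1 ∪ T2 ∪ T3 ∪ T4 ∪ T5 with hT
  have hTβ : ∀ (σ : K₁ →ₐ[K] N) j, ∀ P : Place k N, P.ord (σ (β j)) ≠ 0 → P ∈ T := by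
    intro σ j P hP
    have := hT1 (σ, j) (Finset.mem_univ _) P hP
    simp [hT, this]
  have hTn : ∀ j, ∀ P : Place k N, P.ord (algebraMap K N (Algebra.norm K (β j))) ≠ 0 →
      P ∈ T := by
    intro j P hP
    have := hT2 j (Finset.mem_univ _) P hP
    simp [hT, this]
  have hTf : ∀ x, ∀ P : Place k N, P.ord (algebraMap K N (fam pb β x)) ≠ 0 → P ∈ T := by
    intro x P hP
    have := hT3 x (Finset.mem_univ _) P hP
    simp [hT, this]
  have hTW : ∀ P : Place k N, P.ord W ≠ 0 → P ∈ T := by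
    intro P hP
    have := hT4 0 (Finset.mem_univ _) P hP
    simp [hT, this]
  have hTd : ∀ P : Place k N, P.ord (algebraMap K N (dsc pb)⁻¹) ≠ 0 → P ∈ T := by
    intro P hP
    have := hT4 1 (Finset.mem_univ _) P hP
    simp [hT, this]
  have hTv : ∀ P : Place k N, under K P ∈ (vo_finite hD).toFinset → P ∈ T := by
    intro P hP
    have := (hT5 P).1 hP
    simp [hT, this]
  -- the sum of the local inequalities
  have hloc := Finset.sum_le_sum fun P (_ : P ∈ T) => loc_ineq hE P pb hβ0 hD hD₁ hmq hsum hW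
    (MP_ram P pb β) (ge_coeff P pb β) (ge_dinv P pb β) (fun j i => ge_fam P pb β (Sum.inr (j, i)))
  rw [← hWd] at hloc
  rw [Finset.sum_sub_distrib, Finset.sum_sub_distrib, Finset.sum_add_distrib, ← Finset.mul_sum,
    ← Finset.mul_sum, ← Finset.mul_sum, ← Finset.mul_sum, sum_ord_finset W T hTW,
    Finset.sum_comm (s := T) (t := Finset.univ)
      (f := fun P j => P.ord (algebraMap K N (Algebra.norm K (β j)))),
    Finset.sum_congr rfl fun j _ => sum_ord_finset _ T (hTn j), Finset.sum_const_zero, mul_zero,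
    sub_zero, add_zero, sum_over (L := N) (fun v => vo v D) (vo_finite hD).toFinset
      (fun v hv => by simpa using hv) T hTv, canDeg_finset hD _ (fun v hv => by simpa using hv)]
    at hloc
  -- the total height
  obtain ⟨H, hH⟩ : ∃ H, H = ∑ P ∈ T, ∑ σ : K₁ →ₐ[K] N, lh P β σ := ⟨_, rfl⟩
  have hn : 0 < pb.dim := pb.dim_pos
  have hfr : Module.finrank K K₁ = pb.dim := pb.finrank
  have hβex : ∃ j, β j ≠ 0 := ⟨0, hβ0 0⟩
  have hHeq : H = Module.finrank K N * pht k β := by
    have h1 : ∀ σ : K₁ →ₐ[K] N, (Module.finrank K K₁ : ℤ) * ∑ P ∈ T, lh P β σ =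
        Module.finrank K N * pht k β := by
      intro σ
      rw [← pht_emb σ hβex, pht_sum (f := fun j => σ (β j))
        ⟨0, by rw [Ne, map_eq_zero]; exact hβ0 0⟩ T (hTβ σ)]
      rfl
    have h2 : (Module.finrank K K₁ : ℤ) * H = Module.finrank K K₁ * (Module.finrank K N * pht k β) := by
      rw [hH, Finset.sum_comm, Finset.mul_sum, Finset.sum_congr rfl fun σ _ => h1 σ,
        Finset.sum_const, Finset.card_univ, hE.card, nsmul_eq_mul]
    have h3 : (Module.finrank K K₁ : ℤ) ≠ 0 := by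
      rw [hfr]
      exact_mod_cast hn.ne'
    exact mul_left_cancel₀ h3 h2
  have hH0 : 0 ≤ H := by
    rw [hH]
    exact Finset.sum_nonneg fun P _ => Finset.sum_nonneg fun σ _ => lh_nonneg P h0 σ
  -- the bound for the heights of the family
  have han : (1 : ℤ) ≤ an pb.dim := by unfold an; push_cast; nlinarith [hn]
  have hb : ∀ y : K, (∀ P : Place k N, P.ord (algebraMap K N y) ≠ 0 → P ∈ T) →
      (∀ P : Place k N, Ge P (-(an pb.dim * ∑ σ : K₁ →ₐ[K] N, lh P β σ)) (algebraMap K N y)) →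
      hgt k (algebraMap K N y) ≤ an pb.dim * H := by
    intro y hy1 hy2
    rw [hgt_finset _ T hy1, hH, Finset.mul_sum]
    refine Finset.sum_le_sum fun P _ => ?_
    have h1 : 0 ≤ (an pb.dim : ℤ) * ∑ σ : K₁ →ₐ[K] N, lh P β σ :=
      mul_nonneg (by omega) (Finset.sum_nonneg fun σ _ => lh_nonneg P h0 σ)
    rcases hy2 P with h2 | h2
    · rw [h2, P.ord_zero]
      simpa using h1
    · exact max_le (by omega) h1
  have hlh0 : ∀ P : Place k N, ∀ σ : K₁ →ₐ[K] N, 0 ≤ lh P β σ := fun P σ => lh_nonneg P h0 σ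
  have hg : ∀ P : Place k N, ∀ σ : K₁ →ₐ[K] N, Ge P (-lh P β σ) (σ pb.gen) := fun P σ =>
    ge_gen (fun c σ => map_const c σ) P pb hs σ
  have hS0 : ∀ P : Place k N, 0 ≤ ∑ σ : K₁ →ₐ[K] N, lh P β σ := fun P =>
    Finset.sum_nonneg fun σ _ => lh_nonneg P h0 σ
  have hfam : ∀ x, hgt k (algebraMap K N (fam pb β x)) ≤ an pb.dim * H := by
    intro x
    refine hb _ (hTf x) fun P => ?_
    rcases x with i | x
    · refine (ge_minpoly hE P pb _ (hlh0 P) (hg P) i).mono ?_
      have := hS0 P
      nlinarith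
    · refine (ge_repr hE P pb _ (hlh0 P) (hg P) (fun σ => ge_lh P β σ x.1) x.2).mono ?_
      have h1 := hS0 P
      have h2 : ((pb.dim * pb.dim + 2 : ℤ)) ≤ an pb.dim := by
        unfold an
        push_cast
        have : (1 : ℤ) ≤ pb.dim := by exact_mod_cast hn
        linarith
      have := mul_le_mul_of_nonneg_right h2 h1
      omega
  have hdsc : hgt k (algebraMap K N (dsc pb)⁻¹) ≤ an pb.dim * H := by
    rw [map_inv₀, hgt_inv]
    refine hb _ (fun P hP => hTd P ?_) fun P => ?_
    · rw [map_inv₀, P.ord_inv]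
      omega
    · refine (ge_dsc hE P pb _ (hlh0 P) (hg P)).mono ?_
      have h1 := hS0 P
      have h2 : ((pb.dim * pb.dim : ℤ)) ≤ an pb.dim := by
        unfold an
        push_cast
        have : (1 : ℤ) ≤ pb.dim := by exact_mod_cast hn
        linarith
      have := mul_le_mul_of_nonneg_right h2 h1
      rw [← mul_assoc]
      omega
  have hMsum : ∑ P ∈ T, MP P pb β ≤ (pn pb.dim m : ℤ) * (an pb.dim * H) := by
    have h1 : ∑ P ∈ T, MP P pb β = ∑ x, hgt k (algebraMap K N (fam pb β x)) +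
        hgt k (algebraMap K N (dsc pb)⁻¹) := by
      unfold MP
      rw [Finset.sum_add_distrib, hgt_finset _ T hTd, Finset.sum_comm]
      congr 1
      exact Finset.sum_congr rfl fun x _ => (hgt_finset _ T (hTf x)).symm
    rw [h1]
    have h2 : ∑ x, hgt k (algebraMap K N (fam pb β x)) ≤
        ((pb.dim + (m + 1) * pb.dim : ℕ) : ℤ) * (an pb.dim * H) := by
      refine (Finset.sum_le_card_nsmul _ _ _ fun x _ => hfam x).trans (le_of_eq ?_)
      rw [Finset.card_univ, nsmul_eq_mul]
      simp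
    have h3 : 0 ≤ (an pb.dim : ℤ) * H := mul_nonneg (by omega) hH0
    have h4 : ((pb.dim + (m + 1) * pb.dim : ℕ) : ℤ) * (an pb.dim * H) + an pb.dim * H ≤
        (pn pb.dim m : ℤ) * (an pb.dim * H) := by
      have h5 : ((pb.dim + (m + 1) * pb.dim : ℕ) : ℤ) + 1 ≤ (pn pb.dim m : ℤ) := by
        unfold pn
        push_cast
        have : (0 : ℤ) ≤ m := by positivity
        linarith
      have := mul_le_mul_of_nonneg_right h5 h3
      linarith
    linarith
  rw [← hH] at hloc
  -- the conclusion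
  have hNK : (0 : ℤ) < Module.finrank K N := by exact_mod_cast Module.finrank_pos
  have hfin := circ_arith (q := ((q - m : ℕ) : ℤ)) (m' := pb.dim * tri m)
    (n' := Module.finrank K N * canDeg k K) (H := H) (M := ∑ P ∈ T, MP P pb β)
    (c := pb.dim * tri m * (Module.finrank K N * canDeg k K))
    (A := E4 pb.dim (2 + pb.dim) m) (a := an pb.dim) (b := pn pb.dim m) hH0
    (by
      refine hloc.trans (le_of_eq ?_)
      ring) hMsum (by positivity) (by
      unfold Nbd at hq
      have h1 : an pb.dim * (E4 pb.dim (2 + pb.dim) m * pn pb.dim m + 1) ≤ q - m := by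
        have h2 : an pb.dim * (E4 pb.dim (2 + pb.dim) m * pn pb.dim m + 1) ≤
          an pb.dim * (E4 pb.dim (2 + pb.dim) m * (pn pb.dim m + 3) + 1) := by
          gcongr
          omega
        omega
      exact_mod_cast h1) han rfl
  rw [hHeq] at hfin
  have h6 : (Module.finrank K N : ℤ) * pht k β ≤
      Module.finrank K N * (pb.dim * tri m * canDeg k K) := by
    refine hfin.trans (le_of_eq ?_)
    ring
  exact le_of_mul_le_mul_left h6 hNK

end Pool.Agent.Y221.AH
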