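import Pool.Agent.Y221.AH.Sum
import Pool.Agent.Y221.AB.Alg2
import Pool.Agent.W603.PV.Ext

/-!
The conjugates of the elements of a finite extension.
-/

set_option autoImplicit false
set_option maxHeartbeats 400000
set_option linter.overlappingInstances false
set_option linter.unusedSectionVars false

open FF Pool.Agent.W603.LV Pool.Agent.W603.PV Polynomial IntermediateField

namespace Pool.Agent.Y221.AH

section emb

variable (K K₁ : Type) [Field K] [Field K₁] [Algebra K K₁] [FiniteDimensional K K₁] [CharZero K]

/-- norms and traces are given by the embeddings into `N` -/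
structure Emb (N : Type) [Field N] [Algebra K N] : Prop where
  norm : ∀ x : K₁, algebraMap K N (Algebra.norm K x) = ∏ σ : K₁ →ₐ[K] N, σ x
  tr : ∀ x : K₁, algebraMap K N (Algebra.trace K K₁ x) = ∑ σ : K₁ →ₐ[K] N, σ x
  card : Fintype.card (K₁ →ₐ[K] N) = Module.finrank K K₁

theorem emb_closure : Emb K K₁ (normalClosure K K₁ (AlgebraicClosure K)) := by
  classical
  let e := normalClosure.algHomEquiv K K₁ (AlgebraicClosure K)
  have he : ∀ (σ : K₁ →ₐ[K] normalClosure K K₁ (AlgebraicClosure K)) (x : K₁),
      algebraMap (normalClosure K K₁ (AlgebraicClosure K)) (AlgebraicClosure K) (σ x) = e σ x :=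
    fun σ x => rfl
  have hinj : Function.Injective
      (algebraMap (normalClosure K K₁ (AlgebraicClosure K)) (AlgebraicClosure K)) :=
    fun a b h => Subtype.ext h
  refine ⟨fun x => ?_, fun x => ?_, ?_⟩
  · apply hinj
    rw [← IsScalarTower.algebraMap_apply, Algebra.norm_eq_prod_embeddings, map_prod]
    exact (Fintype.prod_equiv e _ _ fun σ => he σ x).symm
  · apply hinj
    rw [← IsScalarTower.algebraMap_apply, trace_eq_sum_embeddings, map_sum]
    exact (Fintype.sum_equiv e _ _ fun σ => he σ x).symm
  · rw [Fintype.card_congr e]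
    exact AlgHom.card K K₁ (AlgebraicClosure K)

end emb

section fields

variable {K K₁ N : Type} [Field K] [Field K₁] [Algebra K K₁] [FiniteDimensional K K₁] [CharZero K]
  [Field N] [Algebra K N]

/-- the minimal polynomial of the generator -/
theorem Emb.minpoly (h : Emb K K₁ N) (pb : PowerBasis K K₁) :
    (minpoly K pb.gen).map (algebraMap K N) = ∏ σ : K₁ →ₐ[K] N, (X - C (σ pb.gen)) := by
  classical
  apply Polynomial.eq_of_infinite_eval_eq
  apply Set.Infinite.mono (s := Set.range (algebraMap K N))
  · rintro _ ⟨c, rfl⟩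
    change eval (algebraMap K N c) _ = eval (algebraMap K N c) _
    rw [eval_map, eval₂_at_apply, ← charpoly_leftMulMatrix pb, Matrix.eval_charpoly]
    have h1 : Matrix.scalar (Fin pb.dim) c - Algebra.leftMulMatrix pb.basis pb.gen =
        Algebra.leftMulMatrix pb.basis (algebraMap K K₁ c - pb.gen) := by
      rw [map_sub, AlgHom.commutes]
      rfl
    rw [h1, ← Algebra.norm_eq_matrix_det, h.norm, eval_prod]
    refine Finset.prod_congr rfl fun σ _ => ?_
    rw [map_sub, AlgHom.commutes, eval_sub, eval_X, eval_C]
  · exact Set.infinite_range_of_injective (algebraMap K N).injective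

/-- the coordinates are traces -/
theorem repr_trace (pb : PowerBasis K K₁) (y : K₁) (i : Fin pb.dim) :
    pb.basis.repr y i = Algebra.trace K K₁ (y * ((minpolyDiv K pb.gen).coeff i /
      aeval pb.gen (derivative (_root_.minpoly K pb.gen)))) := by
  classical
  have hn : pb.dim = Module.finrank K K₁ := pb.finrank.symm
  -- the linear maps
  let l1 : K₁ →ₗ[K] K := (Finsupp.lapply i).comp pb.basis.repr.toLinearMap
  let l2 : K₁ →ₗ[K] K := (Algebra.trace K K₁).comp (LinearMap.mulRight K
    ((minpolyDiv K pb.gen).coeff i / aeval pb.gen (derivative (_root_.minpoly K pb.gen))))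
  have hl : l1 = l2 := by
    apply pb.basis.ext
    intro r
    change pb.basis.repr (pb.basis r) i = Algebra.trace K K₁ (pb.basis r *
      ((minpolyDiv K pb.gen).coeff i / aeval pb.gen (derivative (_root_.minpoly K pb.gen))))
    apply (algebraMap K (AlgebraicClosure K)).injective
    rw [trace_eq_sum_embeddings, pb.basis.repr_self_apply, pb.basis_eq_pow]
    have h1 := sum_smul_minpolyDiv_eq_X_pow (K := K) (L := K₁) (AlgebraicClosure K)
      (x := pb.gen) pb.adjoin_gen_eq_top (r := (r : ℕ)) (by have := r.2; omega)
    have h2 := congrArg (fun p => p.coeff (i : ℕ)) h1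
    simp only [finsetSum_coeff, coeff_map, coeff_smul, smul_eq_mul, coeff_X_pow] at h2
    have h3 : ∀ σ : K₁ →ₐ[K] AlgebraicClosure K, σ (pb.gen ^ (r : ℕ) *
        ((minpolyDiv K pb.gen).coeff i / aeval pb.gen (derivative (_root_.minpoly K pb.gen)))) =
        (σ : K₁ →+* AlgebraicClosure K) (pb.gen ^ (r : ℕ) / aeval pb.gen (derivative
          (_root_.minpoly K pb.gen)) * (minpolyDiv K pb.gen).coeff i) := by
      intro σ
      change σ _ = σ _
      congr 1
      ring
    rw [Finset.sum_congr rfl fun σ _ => h3 σ, h2]
    by_cases hri : r = i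
    · subst hri
      simp
    · rw [if_neg hri, if_neg (fun h => hri (Fin.ext h.symm)), map_zero]
  exact LinearMap.congr_fun hl y

end fields

end Pool.Agent.Y221.AH
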