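import Pool.Agent.Y221.AH.Blk
import Pool.Agent.W603.CX.WarAll
import Pool.Agent.W603.PV.Main

/-!
Sums of high powers of linear forms: the heights of the points over extensions of bounded degree.
-/

set_option autoImplicit false
set_option maxHeartbeats 400000
set_option linter.overlappingInstances false
set_option linter.unusedSectionVars false

open FF MvPolynomial Pool.Agent.W603.LV Pool.Agent.W603.PV
open Pool.Agent.Y221.AB (NB Nb one_le_NB)
open Pool.Agent.W603.CX (ContainsLine isHomog_iff isHomog_sup isHomog_minimal warSys_rigid_all)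

namespace Pool.Agent.Y221.AH

variable {k : Type} [Field k] {n : ℕ} {ι : Type} {s N : ι → ℕ}

/-- the terms -/
noncomputable def tm (c : (i : ι) → Fin (s i) → k) (l : (i : ι) → Fin (s i) → Fin (n + 1) → k)
    (N : ι → ℕ) (i : ι) (a : Fin (s i)) : MvPolynomial (Fin (n + 1)) k :=
  C (c i a) * lin (l i a) ^ N i

/-- all vanishing sums of terms split into blocks of small height -/
def BP {L : Type} [Field L] [Algebra k L] (t : (i : ι) → Fin (s i) → MvPolynomial (Fin (n + 1)) k)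
    (f : Fin (n + 1) → L) (X : ℤ) : Prop :=
  ∀ (i : ι) (P : Fin (s i) → Prop) [Fintype {a // P a}], (∀ a, P a → aeval f (t i a) ≠ 0) →
    ∑ a : {a // P a}, aeval f (t i a) = 0 →
    ∃ R : {a // P a} → {a // P a} → Prop, Equivalence R ∧
      (∀ a b, R a b → hgt k (aeval f (t i a) / aeval f (t i b)) ≤ X) ∧
      ∀ (a0 : {a // P a}) (B : Finset {a // P a}), (∀ a, a ∈ B ↔ R a0 a) →
        ∑ a ∈ B, aeval f (t i a) = 0

variable [IsAlgClosed k] [CharZero k] [Finite ι] {c : (i : ι) → Fin (s i) → k}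
  {l : (i : ι) → Fin (s i) → Fin (n + 1) → k} {p : Ideal (MvPolynomial (Fin (n + 1)) k)}

theorem proj_core [p.IsPrime] (hc : ∀ i a, c i a ≠ 0) (hN0 : ∀ i, 0 < N i)
    (hN : ∀ i, (s i - 1) ^ 2 ≤ N i) (hp : ∀ i, ∑ a, C (c i a) * lin (l i a) ^ N i ∈ p)
    (hE : (warSys c l hc hN0 hN p hp).Rigid) (hx : ∃ j, X j ∉ p) :
    ∃ G : MvPolynomial (Fin (n + 1)) k, G ∉ p ∧ ∃ B : ℕ, ∀ (L : Type) [Field L]
      [Algebra k L] [IsFF k L] (f : Fin (n + 1) → L),
      (∀ H ∈ p, aeval f H = 0) → aeval f G ≠ 0 → ∀ X : ℤ, 0 ≤ X → BP (tm c l N) f X →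
        pht k f ≤ B * X := by
  classical
  have := Fintype.ofFinite ι
  obtain ⟨E, hEd⟩ : ∃ E, E = warSys c l hc hN0 hN p hp := ⟨_, rfl⟩
  rw [← hEd] at hE
  have hterm0 : ∀ i a, E.term i a = Ideal.Quotient.mk p (tm c l N i a) := by
    intro i a
    rw [hEd]
    rfl
  obtain ⟨m, hm⟩ := hx
  have hmk : ∀ H : MvPolynomial (Fin (n + 1)) k, H ∉ p → Ideal.Quotient.mk p H ≠ 0 := by
    intro H hH h
    exact hH (Ideal.Quotient.eq_zero_iff_mem.1 h)
  obtain ⟨g, hg, B1, E1, hcore⟩ := core_abs.{0, 0, 0, 0, 0, 0} (k := k) (F := k)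
    (A := MvPolynomial (Fin (n + 1)) k ⧸ p) E.term
    (J := Fin (n + 1)) (fun j => Ideal.Quotient.mk p (X j)) (fun _ => Ideal.Quotient.mk p (X m))
    (fun _ => hmk _ hm) (by
      intro R hR hR2 j
      refine hE R hR (fun i a => ?_) j m
      refine Eq.trans ?_ (hR2 i a)
      congr!)
  obtain ⟨G0, hG0⟩ := Ideal.Quotient.mk_surjective g
  set G1 : MvPolynomial (Fin (n + 1)) k := ∏ i, ∏ a,
    (if E.term i a = 0 then 1 else tm c l N i a) with hG1
  have hG0p : G0 ∉ p := by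
    intro h
    apply hg
    rw [← hG0]
    exact Ideal.Quotient.eq_zero_iff_mem.2 h
  have hG1p : G1 ∉ p := by
    intro h
    rw [hG1] at h
    obtain ⟨i, -, h⟩ := (Ideal.IsPrime.prod_mem_iff (hp := inferInstance)).1 h
    obtain ⟨a, -, h⟩ := (Ideal.IsPrime.prod_mem_iff (hp := inferInstance)).1 h
    split_ifs at h with h0
    · exact (Ideal.ne_top_iff_one p).1 (Ideal.IsPrime.ne_top inferInstance) h
    · apply h0
      rw [hterm0]
      exact Ideal.Quotient.eq_zero_iff_mem.2 h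
  refine ⟨G0 * G1 * X m, ?_, (n + 1) * B1, ?_⟩
  · intro h
    rcases Ideal.IsPrime.mem_or_mem inferInstance h with h | h
    · rcases Ideal.IsPrime.mem_or_mem inferInstance h with h | h
      · exact hG0p h
      · exact hG1p h
    · exact hm h
  intro L _ _ _ f hf hfG Xb hXb hBP
  rw [map_mul, map_mul, aeval_X] at hfG
  have hfl : f m ≠ 0 := right_ne_zero_of_mul hfG
  have hfG1 : aeval f G1 ≠ 0 := right_ne_zero_of_mul (left_ne_zero_of_mul hfG)
  have hfG0 : aeval f G0 ≠ 0 := left_ne_zero_of_mul (left_ne_zero_of_mul hfG)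
  let θ : (MvPolynomial (Fin (n + 1)) k ⧸ p) →ₐ[k] L := Ideal.Quotient.liftₐ p (aeval f) hf
  have hθ : ∀ H, θ (Ideal.Quotient.mk p H) = aeval f H := fun H => Ideal.Quotient.liftₐ_apply p _ hf _
  have hterm : ∀ i a, E.term i a ≠ 0 → aeval f (tm c l N i a) ≠ 0 := by
    intro i a ha h0
    apply hfG1
    rw [hG1, map_prod]
    apply Finset.prod_eq_zero (Finset.mem_univ i)
    rw [map_prod]
    apply Finset.prod_eq_zero (Finset.mem_univ a)
    rw [if_neg ha, h0]
  have hblk : ∀ i, ∃ R : {a : Fin (s i) // E.term i a ≠ 0} → {a : Fin (s i) // E.term i a ≠ 0} →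
      Prop, Equivalence R ∧
      (∀ a b, R a b → hgt k (θ (E.term i a) / θ (E.term i b)) ≤ Xb) ∧
      ∀ (a0 : {a : Fin (s i) // E.term i a ≠ 0}) (B : Finset {a : Fin (s i) // E.term i a ≠ 0}),
        (∀ a, a ∈ B ↔ R a0 a) → ∑ a ∈ B, θ (E.term i a) = 0 := by
    intro i
    simp only [hterm0 i, hθ]
    refine hBP i (fun a => E.term i a ≠ 0) (fun a ha => hterm i a ha) ?_
    have h1 : ∑ a : Fin (s i), aeval f (tm c l N i a) = 0 := by
      rw [← map_sum]
      exact hf _ (hp i)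
    rw [← h1, ← Finset.sum_filter_add_sum_filter_not Finset.univ (fun a => E.term i a ≠ 0),
      Finset.sum_eq_zero (s := Finset.univ.filter fun a => ¬ E.term i a ≠ 0), add_zero]
    · exact (Finset.sum_subtype _ (by simp) (fun a => aeval f (tm c l N i a))).symm
    · intro a ha
      rw [Finset.mem_filter, not_not] at ha
      rw [← hθ, ← hterm0, ha.2, map_zero]
  have hfin2 := hcore L θ (by rw [← hG0, hθ]; exact hfG0) _ hXb hblk
  refine (pht_le f hfl).trans ?_
  have h1 : ∀ j, hgt k (f j / f m) ≤ B1 * Xb := by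
    intro j
    have h2 := (hfin2 j).2
    rw [hθ, hθ, aeval_X, aeval_X] at h2
    have h3 : ∑ c ∈ E1, hgt k (algebraMap k L c) = 0 :=
      Finset.sum_eq_zero fun c _ => hgt_algebraic (isAlgebraic_algebraMap c)
    rw [h3, mul_zero, add_zero] at h2
    exact h2
  refine (Finset.sum_le_sum fun j _ => h1 j).trans (le_of_eq ?_)
  rw [Finset.sum_const, nsmul_eq_mul, Finset.card_univ, Fintype.card_fin]
  push_cast
  ring

theorem proj_homog [p.IsPrime] (hph : IsHomog p) (hc : ∀ i a, c i a ≠ 0) (hN0 : ∀ i, 0 < N i)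
    (hN : ∀ i, (s i - 1) ^ 2 ≤ N i) (hp : ∀ i, ∑ a, C (c i a) * lin (l i a) ^ N i ∈ p)
    (hE : (warSys c l hc hN0 hN p hp).Rigid) (hx : ∃ j, X j ∉ p) :
    ∃ (d : ℕ) (G : MvPolynomial (Fin (n + 1)) k), G.IsHomogeneous d ∧ G ∉ p ∧
      ∃ B : ℕ, ∀ (L : Type) [Field L]
      [Algebra k L] [IsFF k L] (f : Fin (n + 1) → L),
      (∀ H ∈ p, aeval f H = 0) → aeval f G ≠ 0 → ∀ X : ℤ, 0 ≤ X →
        (∀ z : L, z ≠ 0 → BP (tm c l N) (fun j => z * f j) X) →
        pht k f ≤ B * X := by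
  obtain ⟨G0, hG0, B, h⟩ := proj_core hc hN0 hN hp hE hx
  obtain ⟨m, hm⟩ := hx
  obtain ⟨d, hd⟩ := exists_component hph hG0
  refine ⟨d + 1, homogeneousComponent d G0 * X m, ?_, ?_, B, ?_⟩
  · exact (homogeneousComponent_isHomogeneous d G0).mul (isHomogeneous_X _ _)
  · intro h
    rcases Ideal.IsPrime.mem_or_mem inferInstance h with h | h
    · exact hd h
    · exact hm h
  · intro L _ _ _ f hf hfG Xb hXb hBP
    rw [map_mul, aeval_X] at hfG
    have hfl : f m ≠ 0 := right_ne_zero_of_mul hfG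
    have hfG0 := left_ne_zero_of_mul hfG
    have hinf : Infinite L := by
      have : CharZero L := charZero_of_injective_algebraMap (algebraMap k L).injective
      infer_instance
    obtain ⟨z, hz, hzG⟩ := exists_scale G0 f d hfG0
    have h1 := h L (fun j => z * f j) (by
      intro H hH
      rw [aeval_scale_sum]
      refine Finset.sum_eq_zero fun e _ => ?_
      rw [hf _ (hph H hH e), mul_zero]) hzG Xb hXb (hBP z hz)
    rwa [pht_scale ⟨m, hfl⟩ hz] at h1

theorem noeth (hc : ∀ i a, c i a ≠ 0) (hN0 : ∀ i, 0 < N i) (hN : ∀ i, (s i - 1) ^ 2 ≤ N i)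
    (hline : ¬ ContainsLine (fun i => ∑ a, C (c i a) * lin (l i a) ^ N i))
    (I : Ideal (MvPolynomial (Fin (n + 1)) k))
    (hI0 : ∀ i, ∑ a, C (c i a) * lin (l i a) ^ N i ∈ I) (hI : IsHomog I) :
    ∃ A : ℕ, ∀ (L : Type) [Field L] [Algebra k L] [IsFF k L] (f : Fin (n + 1) → L),
      (∃ j, f j ≠ 0) → (∀ H ∈ I, aeval f H = 0) → ∀ X : ℤ, 0 ≤ X →
        (∀ z : L, z ≠ 0 → BP (tm c l N) (fun j => z * f j) X) → pht k f ≤ A * X := by
  classical
  induction I using WellFoundedGT.induction with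
  | ind I ih =>
    -- each minimal prime
    have key : ∀ p ∈ I.minimalPrimes, ∃ A : ℕ, ∀ (L : Type) [Field L] [Algebra k L] [IsFF k L]
        (f : Fin (n + 1) → L), (∃ j, f j ≠ 0) → (∀ H ∈ p, aeval f H = 0) → ∀ X : ℤ, 0 ≤ X →
        (∀ z : L, z ≠ 0 → BP (tm c l N) (fun j => z * f j) X) → pht k f ≤ A * X := by
      intro p hp
      have hpp : p.IsPrime := hp.1.1
      have hIp : I ≤ p := hp.1.2
      have hph := isHomog_minimal hI hp
      by_cases hx : ∃ j, X j ∉ p
      · have hpI : ∀ i, ∑ a, C (c i a) * lin (l i a) ^ N i ∈ p := fun i => hIp (hI0 i)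
        obtain ⟨d, G, hGd, hG, B, h⟩ := proj_homog hph hc hN0 hN hpI
          (warSys_rigid_all c l hc hN0 hN hpI hline) hx
        have hlt : I < p ⊔ Ideal.span {G} := by
          refine lt_of_le_of_lt hIp (lt_of_le_of_ne le_sup_left ?_)
          intro heq
          apply hG
          rw [heq]
          exact (le_sup_right : Ideal.span {G} ≤ p ⊔ Ideal.span {G})
            (Ideal.subset_span rfl)
        obtain ⟨A, hA⟩ := ih _ hlt (fun i => hlt.le (hI0 i)) (isHomog_sup hph hGd)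
        refine ⟨max A B, fun L _ _ _ f hf0 hf Xb hXb hBP => ?_⟩
        by_cases hfG : aeval f G = 0
        · refine (hA L f hf0 ?_ Xb hXb hBP).trans (mul_le_mul_of_nonneg_right ?_ hXb)
          · intro H hH
            obtain ⟨a, ha, b, hb, rfl⟩ := Submodule.mem_sup.1 hH
            obtain ⟨c, rfl⟩ := Ideal.mem_span_singleton'.1 hb
            rw [map_add, map_mul, hf a ha, hfG, mul_zero, add_zero]
          · exact_mod_cast le_max_left A B
        · refine (h L f hf hfG Xb hXb hBP).trans (mul_le_mul_of_nonneg_right ?_ hXb)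
          exact_mod_cast le_max_right A B
      · push Not at hx
        refine ⟨0, fun L _ _ _ f hf0 hf _ _ _ => ?_⟩
        obtain ⟨j, hj⟩ := hf0
        have := hf _ (hx j)
        rw [aeval_X] at this
        exact absurd this hj
    choose! A hA using key
    have hfin : I.minimalPrimes.Finite := Ideal.finite_minimalPrimes_of_isNoetherianRing _ I
    refine ⟨∑ p ∈ hfin.toFinset, A p, fun L _ _ _ f hf0 hf Xb hXb hBP => ?_⟩
    have hker : (RingHom.ker (aeval f : MvPolynomial (Fin (n + 1)) k →ₐ[k] L)).IsPrime :=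
      RingHom.ker_isPrime _
    obtain ⟨p, hp, hpf⟩ := Ideal.exists_minimalPrimes_le
      (I := I) (J := RingHom.ker (aeval f : MvPolynomial (Fin (n + 1)) k →ₐ[k] L))
      (fun H hH => RingHom.mem_ker.2 (hf H hH))
    refine (hA p hp L f hf0 (fun H hH => RingHom.mem_ker.1 (hpf hH)) Xb hXb hBP).trans
      (mul_le_mul_of_nonneg_right ?_ hXb)
    exact_mod_cast Finset.single_le_sum (f := A) (fun _ _ => Nat.zero_le _)
      ((Set.Finite.mem_toFinset hfin).2 hp)

theorem NB_mono {r s s' : ℕ} (h : s ≤ s') : NB r s ≤ NB r s' := by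
  unfold NB
  exact Nat.add_le_add_left (Finset.sum_le_sum_of_subset (Finset.range_mono h)) 1

/-- **Sums of powers of linear forms.** -/
theorem pow_maps {r : ℕ} (hc : ∀ i a, c i a ≠ 0) (hN : ∀ i, (s i - 1) ^ 2 ≤ N i)
    (hNB : ∀ i, NB r (s i) ≤ N i)
    (hline : ¬ ContainsLine (fun i => ∑ a, C (c i a) * lin (l i a) ^ N i)) :
    ∃ A : ℕ, ∀ (K E : Type) [Field K] [Field E] [Algebra k K] [Algebra k E] [Algebra K E]
      [IsScalarTower k K E] [FiniteDimensional K E] [IsFF k K] [IsFF k E],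
      Module.finrank K E ≤ r → ∀ f : Fin (n + 1) → E, (∃ j, f j ≠ 0) →
      (∀ i, aeval f (∑ a, C (c i a) * lin (l i a) ^ N i) = 0) →
      pht k f ≤ A * max (canDeg k K) 0 := by
  classical
  have := Fintype.ofFinite ι
  have hN0 : ∀ i, 0 < N i := fun i => lt_of_lt_of_le (one_le_NB r (s i)) (hNB i)
  obtain ⟨B0, hB0⟩ : ∃ B0 : ℕ, B0 = ∑ i, s i * (N i * (r * (tri (s i)).toNat)) := ⟨_, rfl⟩
  obtain ⟨A, hA⟩ := noeth hc hN0 hN hline (Ideal.span (Set.range fun i => ∑ a, C (c i a) *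
    lin (l i a) ^ N i)) (fun i => Ideal.subset_span ⟨i, rfl⟩) (by
      rw [isHomog_iff]
      let _ := MvPolynomial.gradedAlgebra (σ := Fin (n + 1)) (R := k)
      exact Ideal.homogeneous_span _ _ fun x hx => by
        obtain ⟨i, rfl⟩ := hx
        exact ⟨N i, IsPowSum.isHomogeneous ⟨c i, l i, hc i, rfl⟩⟩)
  refine ⟨A * B0, fun K E _ _ _ _ _ _ _ _ _ hr f hf0 hf => ?_⟩
  set χ : ℤ := max (canDeg k K) 0 with hχ
  have hχ0 : 0 ≤ χ := le_max_right _ _
  have hBχ : 0 ≤ (B0 : ℤ) * χ := mul_nonneg (Nat.cast_nonneg _) hχ0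
  have h1 := hA E f hf0 (fun H hH => by
    have h2 : Ideal.span (Set.range fun i => ∑ a, C (c i a) * lin (l i a) ^ N i) ≤
        RingHom.ker (aeval f : MvPolynomial (Fin (n + 1)) k →ₐ[k] E) := by
      rw [Ideal.span_le]
      rintro _ ⟨i, rfl⟩
      exact RingHom.mem_ker.2 (hf i)
    exact RingHom.mem_ker.1 (h2 hH)) (B0 * χ) hBχ (by
    intro z hz i P _ hP hsum
    obtain ⟨R, hR1, hR2, hR3⟩ := blocks (K := K) (k := k) hr (s := s i) (by
        have := Fintype.card_subtype_le P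
        rwa [Fintype.card_fin] at this) (hNB i)
      (fun a : {a // P a} => aeval (fun j => z * f j) (tm c l N i a)) (fun a => hP a a.2) hsum
      (fun a => ⟨c i a, aeval (fun j => z * f j) (lin (l i a)), by
        unfold tm
        rw [map_mul, map_pow, MvPolynomial.algHom_C]⟩)
    refine ⟨R, hR1, fun a b hab => (hR2 a b hab).trans ?_, hR3⟩
    have h2 : ((s i * (N i * (r * (tri (s i)).toNat)) : ℕ) : ℤ) ≤ B0 := by
      rw [hB0]
      exact_mod_cast Finset.single_le_sum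
        (f := fun i => s i * (N i * (r * (tri (s i)).toNat)))
        (fun _ _ => Nat.zero_le _) (Finset.mem_univ i)
    refine le_trans (le_of_eq ?_) (mul_le_mul_of_nonneg_right h2 hχ0)
    rw [Nat.cast_mul, Nat.cast_mul, Nat.cast_mul, Int.toNat_of_nonneg (tri_nonneg _)]
    ring)
  refine h1.trans (le_of_eq ?_)
  push_cast
  ring

end Pool.Agent.Y221.AH
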