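import Pool.Agent.Y221.AH.Sparse
import Pool.Agent.Y221.AH.Pow
import Pool.Agent.W602.GT.Four

/-!
Systems of high powers without curves from the multiplicative group: the heights of the points
over extensions of bounded degree.
-/

set_option autoImplicit false
set_option maxHeartbeats 400000
set_option linter.overlappingInstances false
set_option linter.unusedSectionVars false

open FF

namespace Pool.Agent.Y221.AH

open Pool.Agent.W602.GT Pool.Agent.W603.LV Pool.Agent.W603.PV
open Pool.Agent.Y221.AB (NB)
open Pool.Agent.W603.CX (HasOrbit ContainsLine)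

variable {k : Type} [Field k] [IsAlgClosed k] [CharZero k] {n : ℕ} {ι : Type}

theorem gm_of_orbit {F : ι → MvPolynomial (Fin (n + 1)) k} (hF : ∀ e, IsForm (F e))
    (h : HasOrbit ∅ F) : ∃ P, GmCurve F P := by
  obtain ⟨x, b, hx, j, l, hj, hl, hb⟩ := h
  have hd : DiagCurve ∅ F x b := by
    refine ⟨fun t ht => ⟨?_, fun j hj => absurd hj (Set.notMem_empty j), fun e => ?_⟩,
      j, l, hj, hl, hb⟩
    · have h1 := (hx t ht).1
      intro h0
      apply h1
      funext i
      have := congrFun h0 i
      rw [Pi.zero_apply] at this ⊢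
      rw [mul_comm]
      exact this
    · rw [val_eval']
      have h1 := (hx t ht).2.2 e
      simpa only [mul_comm] using h1
  obtain ⟨P, hP, -⟩ := gm_of_diag hF hd
  exact ⟨P, hP⟩

/-- **Systems of high powers.** -/
theorem high_maps [Finite ι] {F : ι → MvPolynomial (Fin (n + 1)) k} {s N r : ℕ}
    (hF : HighPowers s N F) (hn : n ≠ 0) (hN1 : 1 ≤ N)
    (hN : n * ((s + 1) * ((s - 1) * (s - 2) / 2)) ≤ N) (hNB : NB r s ≤ N)
    (hno : ∀ P, ¬ GmCurve F P) :
    ∃ A : ℕ, ∀ (K E : Type) [Field K] [Field E] [Algebra k K] [Algebra k E] [Algebra K E]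
      [IsScalarTower k K E] [FiniteDimensional K E] [IsFF k K] [IsFF k E],
      Module.finrank K E ≤ r → ∀ f : Fin (n + 1) → E, (∃ j, f j ≠ 0) →
      (∀ i, val f (F i) = 0) → pht k f ≤ A * max (canDeg k K) 0 := by
  have h : tn (s - 1) = (s - 1) * (s - 2) / 2 := by
    unfold tn
    rw [Fin.sum_univ_eq_sum_range (fun i => i), Finset.sum_range_id, Nat.sub_sub]
  have hN' : n * ((s + 1) * tn (s - 1)) ≤ N := by rw [h]; exact hN
  have hsq := sq_le_of hn hN1 hN
  rcases hF with hF | hF
  · have hline : ¬ ContainsLine F := by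
      rw [contains_iff hF hN1 hN']
      push Not
      exact hno
    choose r' d l hr' hd hFe using hF
    have hFe' : F = fun i => ∑ a : Fin (r' i), MvPolynomial.C ((fun _ _ => 1 :
        (i : ι) → Fin (r' i) → k) i a) * lin (l i a) ^ d i := by
      funext i
      rw [hFe i]
      refine Finset.sum_congr rfl fun a _ => ?_
      rw [MvPolynomial.C_1, one_mul]
      rfl
    rw [hFe'] at hline ⊢
    exact pow_maps (r := r) (c := fun _ _ => 1) (l := l) (N := d) (fun _ _ => one_ne_zero)
      (fun i => (Nat.pow_le_pow_left (by have := hr' i; omega) 2).trans (hsq.trans (hd i)))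
      (fun i => ((NB_mono (hr' i)).trans hNB).trans (hd i)) hline
  · have ho : ¬ HasOrbit ∅ F := fun ho => by
      obtain ⟨P, hP⟩ := gm_of_orbit (fun e => (hF e).1) ho
      exact hno P hP
    exact all_maps hNB F hF ho

end Pool.Agent.Y221.AH
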