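import Pool.Agent.Y221.AH.Ineq

/-!
Heights of points in extensions.
-/

set_option autoImplicit false
set_option maxHeartbeats 400000
set_option linter.overlappingInstances false
set_option linter.unusedSectionVars false

open FF Pool.Agent.W603.LV Pool.Agent.W603.PV

namespace Pool.Agent.Y221.AH

section one

variable {k L : Type} [Field k] [Field L] [Algebra k L]

theorem pord_eq_zero (P : Place k L) {n : ℕ} {f : Fin (n + 1) → L} (hf : ∃ j, f j ≠ 0)
    (h : ∀ j, P.ord (f j) = 0) : pord P f = 0 := by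
  obtain ⟨j, _, hj⟩ := exists_pord P hf
  rw [← hj, h]

theorem pht_sum {n : ℕ} {f : Fin (n + 1) → L} (hf : ∃ j, f j ≠ 0) (T : Finset (Place k L))
    (hT : ∀ j, ∀ P : Place k L, P.ord (f j) ≠ 0 → P ∈ T) :
    pht k f = ∑ P ∈ T, -pord P f := by
  unfold pht
  rw [finsum_eq_sum_of_support_subset (s := T), Finset.sum_neg_distrib]
  intro P hP
  by_contra hcon
  apply hP
  apply pord_eq_zero P hf
  intro j
  by_contra h
  exact hcon (hT j P h)

theorem pord_le_iff (P : Place k L) {n : ℕ} {f : Fin (n + 1) → L} (hf : ∃ j, f j ≠ 0) (a : ℤ) :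
    a ≤ pord P f ↔ ∀ j, Ge P a (f j) := by
  constructor
  · intro h j
    exact (ge_pord P f j).mono h
  · intro h
    obtain ⟨j, hj0, hj⟩ := exists_pord P hf
    rw [← hj]
    exact (h j).resolve_left hj0

end one

variable {k K L : Type} [Field k] [Field K] [Field L] [Algebra k K] [Algebra k L] [Algebra K L]
  [IsScalarTower k K L] [IsAlgClosed k] [CharZero k] [IsFF k K] [IsFF k L]

theorem pord_under (w : Place k L) {n : ℕ} {f : Fin (n + 1) → K} (hf : ∃ j, f j ≠ 0) :
    pord w (fun j => algebraMap K L (f j)) = ram K w * pord (under K w) f := by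
  have hf' : ∃ j, algebraMap K L (f j) ≠ 0 := by
    obtain ⟨j, hj⟩ := hf
    exact ⟨j, by rwa [Ne, map_eq_zero]⟩
  have hr : (0 : ℤ) < ram K w := by exact_mod_cast (ram_spec (F := K) w).1
  apply le_antisymm
  · obtain ⟨j, hj0, hj⟩ := exists_pord (under K w) hf
    rw [← hj, ← ord_under]
    exact pord_le w (f := fun j => algebraMap K L (f j)) (by rwa [Ne, map_eq_zero])
  · obtain ⟨j, hj0, hj⟩ := exists_pord w hf'
    rw [← hj, ord_under]
    refine mul_le_mul_of_nonneg_left (pord_le _ ?_) hr.le
    rwa [Ne, map_eq_zero] at hj0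

variable [FiniteDimensional K L]

/-- the places over a finite set of places -/
theorem exists_over (T : Finset (Place k K)) :
    ∃ T' : Finset (Place k L), ∀ w, under K w ∈ T ↔ w ∈ T' := by
  classical
  choose S hS hS' using fun v : Place k K => sum_ram (L := L) v
  refine ⟨T.biUnion S, fun w => ?_⟩
  rw [Finset.mem_biUnion]
  constructor
  · intro h
    exact ⟨_, h, (hS _ w).2 rfl⟩
  · rintro ⟨v, hv, hw⟩
    rw [(hS v w).1 hw]
    exact hv

theorem pht_algebraMap {n : ℕ} {f : Fin (n + 1) → K} (hf : ∃ j, f j ≠ 0) :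
    pht k (fun j => algebraMap K L (f j)) = Module.finrank K L * pht k f := by
  classical
  obtain ⟨T, hT⟩ := exists_supp (k := k) Finset.univ f
  obtain ⟨T', hT'⟩ := exists_over (L := L) T
  have hf' : ∃ j, algebraMap K L (f j) ≠ 0 := by
    obtain ⟨j, hj⟩ := hf
    exact ⟨j, by rwa [Ne, map_eq_zero]⟩
  rw [pht_sum hf T fun j P => hT j (Finset.mem_univ j) P, pht_sum hf' T' ?_,
    ← sum_over (L := L) (fun v => -pord v f) T ?_ T' (fun w => (hT' w).1)]
  · refine Finset.sum_congr rfl fun w _ => ?_
    rw [pord_under w hf]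
    ring
  · intro v hv
    by_contra hcon
    apply hv
    rw [pord_eq_zero v hf, neg_zero]
    intro j
    by_contra h
    exact hcon (hT j (Finset.mem_univ j) v h)
  · intro j w hw
    rw [← hT']
    rw [ord_under] at hw
    exact hT j (Finset.mem_univ j) _ fun h => hw (by rw [h, mul_zero])

end Pool.Agent.Y221.AH
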