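import Pool.Agent.Y221.AH.High
import Pool.Agent.Y221.FQ.Lift
import Pool.Agent.Y221.FQ.Cnv

/-!
Algebraic hyperbolicity of the images of finite morphisms.
-/

set_option autoImplicit false
set_option maxHeartbeats 400000
set_option linter.overlappingInstances false
set_option linter.unusedSectionVars false

open FF

namespace Pool.Agent.Y221.AH

open Pool.Agent.W602.GT Pool.Agent.W603.LV Pool.Agent.W603.PV Pool.Agent.Y221.FQ
open Pool.Agent.Y221.AB (NB)
open Pool.Agent.W603.CX (AlgHyperbolic BoundedOnCurves hgt_le_pht)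

variable {k : Type} [Field k] [IsAlgClosed k] [CharZero k] {m n M : ℕ} {ι κ μ : Type}
  {Ψ : κ → MvPolynomial (Fin (m + 1)) k} {F : ι → MvPolynomial (Fin (n + 1)) k}
  {Φ : μ → MvPolynomial (Fin (M + 1)) k} {G : Fin (M + 1) → MvPolynomial (Fin (m + 1)) k}
  {B : Fin (n + 1) → MvPolynomial (Fin (m + 1)) k}

/-- heights of the images under a morphism -/
theorem pord_im (hB : Mor Ψ F B) {e : ℕ} (he : ∀ j, (B j).IsHomogeneous e)
    (hΨ : ∀ e, IsForm (Ψ e)) {E : Type} [Field E]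
    [Algebra k E] [IsFF k E] {u : Fin (m + 1) → E} (hu : ∃ j, u j ≠ 0)
    (huΨ : ∀ e, val u (Ψ e) = 0) (P : Place k E) : pord P (im B u) = e * pord P u := by
  obtain ⟨j0, hj0, hj0'⟩ := exists_pord P hu
  obtain ⟨v, hv⟩ : ∃ v : Fin (m + 1) → E, v = fun j => (u j0)⁻¹ * u j := ⟨_, rfl⟩
  have hv0 : v j0 = 1 := by
    rw [hv]
    exact inv_mul_cancel₀ hj0
  have hvG : ∀ j, Ge P 0 (v j) := by
    intro j
    have h0 : Ge P (P.ord (u j0)⁻¹) (u j0)⁻¹ := Or.inr le_rfl
    have h1 := h0.mul (ge_pord P u j)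
    rw [P.ord_inv, hj0'] at h1
    rw [hv]
    exact h1.mono (by omega)
  have hvΨ : ∀ e, val v (Ψ e) = 0 := by
    intro e'
    obtain ⟨d, hd⟩ := hΨ e'
    rw [hv, val_smul hd, huΨ, mul_zero]
  choose c hc using fun j => Pool.Agent.W603.LV.exists_const P (hvG j)
  have hred := red_mvaeval P hvG hc
  have hcc : c ∈ Cone Ψ := by
    refine ⟨fun h0 => ?_, fun e' => ?_⟩
    · have h1 := hc j0
      rw [hv0, congrFun h0 j0, Pi.zero_apply, map_zero, sub_zero] at h1
      rcases h1 with h1 | h1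
      · exact one_ne_zero h1
      · rw [P.ord_one] at h1
        omega
    · have h1 := hred (Ψ e')
      have h2 : MvPolynomial.aeval v (Ψ e') = 0 := hvΨ e'
      rw [h2, zero_sub] at h1
      have h3 := h1.neg
      rw [neg_neg] at h3
      rw [val_eval']
      exact const_zero P h3
  obtain ⟨b, hb⟩ := Function.ne_iff.1 (hB.maps c hcc).1
  have hb' : MvPolynomial.eval c (B b) ≠ 0 := by
    rw [← val_eval']
    exact hb
  have hvb : val v (B b) ≠ 0 ∧ P.ord (val v (B b)) = 0 := by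
    have h1 := hred (B b)
    have h2 : P.ord (algebraMap k E (MvPolynomial.eval c (B b))) = 0 := P.ord_const hb'
    have h3 : algebraMap k E (MvPolynomial.eval c (B b)) ≠ 0 := by rwa [Ne, map_eq_zero]
    have h4 : val v (B b) = algebraMap k E (MvPolynomial.eval c (B b)) +
        (MvPolynomial.aeval v (B b) - algebraMap k E (MvPolynomial.eval c (B b))) := by
      rw [add_sub_cancel]
      rfl
    by_cases h5 : MvPolynomial.aeval v (B b) - algebraMap k E (MvPolynomial.eval c (B b)) = 0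
    · rw [h4, h5, add_zero]
      exact ⟨h3, h2⟩
    · have h6 := h1.resolve_left h5
      have h7 := P.ord_add_eq (f := algebraMap k E (MvPolynomial.eval c (B b))) h3 h5
        (by rw [h2]; omega)
      rw [h4]
      rw [h2] at h7
      exact h7
  have hub : im B u b = u j0 ^ e * val v (B b) := by
    have h1 : u = fun j => u j0 * v j := by
      funext j
      rw [hv]
      simp only
      rw [mul_inv_cancel_left₀ hj0]
    unfold im
    conv_lhs => rw [h1]
    exact val_smul (he b) _ _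
  have hub0 : im B u b ≠ 0 := by
    rw [hub]
    exact mul_ne_zero (pow_ne_zero _ hj0) hvb.1
  apply le_antisymm
  · refine (pord_le P hub0).trans (le_of_eq ?_)
    rw [hub, P.ord_mul (pow_ne_zero _ hj0) hvb.1, P.ord_pow, hvb.2, hj0', add_zero]
  · rw [Pool.Agent.Y221.AH.pord_le_iff P ⟨b, hub0⟩]
    intro j
    exact ge_form P u (he j) fun α _ => Ge.const _

theorem pht_im (hB : Mor Ψ F B) {e : ℕ} (he : ∀ j, (B j).IsHomogeneous e)
    (hΨ : ∀ e, IsForm (Ψ e)) {E : Type} [Field E]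
    [Algebra k E] [IsFF k E] {u : Fin (m + 1) → E} (hu : ∃ j, u j ≠ 0)
    (huΨ : ∀ e, val u (Ψ e) = 0) : pht k (im B u) = e * pht k u := by
  classical
  have hu0 : u ≠ 0 := by
    rintro rfl
    obtain ⟨j, hj⟩ := hu
    exact hj rfl
  have h1 := hB.mem hu0 huΨ
  obtain ⟨T1, hT1⟩ := exists_supp (k := k) Finset.univ u
  obtain ⟨T2, hT2⟩ := exists_supp (k := k) Finset.univ (im B u)
  rw [pht_sum hu (T1 ∪ T2) fun j P hP => Finset.mem_union_left _ (hT1 j (Finset.mem_univ j) P hP),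
    pht_sum (Function.ne_iff.1 h1.1) (T1 ∪ T2) fun j P hP =>
      Finset.mem_union_right _ (hT2 j (Finset.mem_univ j) P hP), Finset.mul_sum]
  refine Finset.sum_congr rfl fun P _ => ?_
  rw [pord_im hB he hΨ hu huΨ]
  ring

theorem pht_nonneg {E : Type} [Field E] [Algebra k E] [IsFF k E] {u : Fin (m + 1) → E}
    (hu : ∃ j, u j ≠ 0) : 0 ≤ pht k u := by
  obtain ⟨j, hj⟩ := hu
  have h1 := hgt_le_pht (k := k) u hj hj
  rw [div_self hj, hgt_one] at h1
  exact h1

/-- **Covers.** -/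
theorem cover_hyp [Finite ι] (hΨ : ∀ e, IsForm (Ψ e)) (hB : Mor Ψ F B) (hG : Mor Ψ Φ G)
    (hon : Onto Ψ Φ G) {r s N : ℕ} (hfib : FibresLe Ψ G r) (hF : HighPowers s N F) (hn : n ≠ 0)
    (hN1 : 1 ≤ N) (hN : n * ((s + 1) * ((s - 1) * (s - 2) / 2)) ≤ N) (hNB : NB r s ≤ N)
    (hno : ∀ P, ¬ GmCurve F P) : ∃ A : ℕ, AlgHyperbolic A Φ := by
  obtain ⟨A, hA⟩ := high_maps hF hn hN1 hN hNB hno
  obtain ⟨eB, heB, hBe⟩ := hB.form
  obtain ⟨eG, heG, hGe⟩ := hG.form
  refine ⟨eG * A, fun K _ _ _ f hf0 hf => ?_⟩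
  have hf0' : f ≠ 0 := by
    rintro rfl
    obtain ⟨j, hj⟩ := hf0
    exact hj rfl
  obtain ⟨E, i1, i2, i3, i4, i5, u, i0, c, hrk, hu0, huΨ, hc0, hcz, htop⟩ :=
    lift_point hΨ hG hon hfib hf0' hf
  have hff : IsFF k E := isFF_of_finite (F := K)
  have huex : ∃ j, u j ≠ 0 := ⟨i0, by rw [hu0]; exact one_ne_zero⟩
  have hu : u ≠ 0 := by
    intro h0
    rw [h0] at hu0
    exact zero_ne_one hu0
  have h1 := hB.mem hu huΨ
  have h2 := hA K E hrk (im B u) (Function.ne_iff.1 h1.1) h1.2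
  rw [pht_im hB hBe hΨ huex huΨ] at h2
  have hGu := hG.mem hu huΨ
  have h3 : pht k (fun j => algebraMap K E (f j)) = eG * pht k u := by
    have h4 : (fun j => algebraMap K E (f j)) = fun j => c * im G u j := funext hcz
    rw [h4, pht_scale (Function.ne_iff.1 hGu.1) hc0, pht_im hG hGe hΨ huex huΨ]
  rw [pht_algebraMap hf0] at h3
  have h4 : 0 ≤ pht k u := pht_nonneg huex
  have h5 : 0 ≤ pht k f := pht_nonneg hf0
  have h6 : (1 : ℤ) ≤ Module.finrank K E := by exact_mod_cast Module.finrank_pos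
  have h7 : (1 : ℤ) ≤ eB := by exact_mod_cast heB
  have h8 : (0 : ℤ) ≤ eG := by positivity
  have h9 : pht k f ≤ Module.finrank K E * pht k f := by nlinarith
  have h10 : pht k u ≤ eB * pht k u := by nlinarith
  have h11 := mul_le_mul_of_nonneg_left (h10.trans h2) h8
  push_cast
  rw [mul_assoc]
  linarith

end Pool.Agent.Y221.AH
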