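import Pool.Agent.Y221.AH.Loc
import Pool.Agent.W603.PV.Hgt

/-!
The local inequality.
-/

set_option autoImplicit false
set_option maxHeartbeats 400000
set_option linter.overlappingInstances false
set_option linter.unusedSectionVars false

open FF Pool.Agent.W603.LV Pool.Agent.W603.PV Polynomial IntermediateField
open Pool.Agent.Y221.AB (Filt HG alg_part E4)

namespace Pool.Agent.Y221.AH

theorem ord_prod {k N : Type} [Field k] [Field N] [Algebra k N] (P : Place k N) {ι : Type*}
    (s : Finset ι) (f : ι → N) (hf : ∀ i ∈ s, f i ≠ 0) :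
    P.ord (∏ i ∈ s, f i) = ∑ i ∈ s, P.ord (f i) := by
  classical
  induction s using Finset.induction_on with
  | empty => simpa using P.ord_one
  | insert i s hi ih =>
    rw [Finset.prod_insert hi, Finset.sum_insert hi, P.ord_mul (hf i (Finset.mem_insert_self _ _))
      (Finset.prod_ne_zero_iff.2 fun j hj => hf j (Finset.mem_insert_of_mem hj)),
      ih fun j hj => hf j (Finset.mem_insert_of_mem hj)]

section filt

variable {k K N : Type} [Field k] [Field K] [Field N] [Algebra k K]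
  [Algebra k N] [Algebra K N] [IsScalarTower k K N]

/-- the filtration of a place of an extension -/
def GP (P : Place k N) (M : ℤ) (A : ℕ) (x : K) : Prop := Ge P (-(A * M)) (algebraMap K N x)

variable [IsAlgClosed k] [CharZero k] [IsFF k K] [IsFF k N]

theorem filt (P : Place k N) {D : Derivation k K K} (hD : D ≠ 0) {M : ℤ}
    (hM : M = 0 ∨ (ram K P : ℤ) ≤ M) :
    Filt ((D (unif (under K P)))⁻¹ • D) (GP (K := K) P M) := by
  have hr : (0 : ℤ) < ram K P := by exact_mod_cast (ram_spec (F := K) P).1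
  have hM0 : 0 ≤ M := by rcases hM with h | h <;> omega
  have hu : D (unif (under K P)) ≠ 0 := der_pi_ne_zero hD _ (ord_unif _)
  refine ⟨?_, ?_, ?_, ?_, ?_⟩
  · intro A A' x hA hx
    refine Ge.mono ?_ hx
    have : (A : ℤ) * M ≤ A' * M := mul_le_mul_of_nonneg_right (by exact_mod_cast hA) hM0
    omega
  · intro A x y hx hy
    unfold GP
    rw [map_add]
    exact Ge.add hx hy
  · intro A A' x y hx hy
    unfold GP
    rw [map_mul]
    refine (Ge.mul hx hy).mono (le_of_eq ?_)
    push_cast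
    ring
  · intro c
    unfold GP
    rw [← IsScalarTower.algebraMap_apply]
    refine (Ge.const c).mono ?_
    simp
  · intro A x hx
    unfold GP at hx ⊢
    rcases eq_or_ne x 0 with rfl | hx0
    · rw [map_zero, map_zero]
      exact Ge.zero
    have hx1 : algebraMap K N x ≠ 0 := by rwa [Ne, map_eq_zero]
    have hx2 := hx.resolve_left hx1
    rw [ord_under] at hx2
    have hM4 : -(((4 * A + 1 : ℕ) : ℤ) * M) ≤ -(A * M) - M := by
      push_cast
      have : 0 ≤ (A : ℤ) * M := mul_nonneg (by positivity) hM0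
      nlinarith
    have hA0 : 0 ≤ (A : ℤ) * M := mul_nonneg (by positivity) hM0
    by_cases ha : 0 ≤ (under K P).ord x
    · have h1 : Ge (under K P) 0 (((D (unif (under K P)))⁻¹ • D) x) := by
        refine der_reg (under K P) (ord_unif _) _ ?_ (Or.inr ha)
        rw [Derivation.coe_smul, Pi.smul_apply, smul_eq_mul, inv_mul_cancel₀ hu]
      rcases h1 with h1 | h1
      · rw [h1, map_zero]
        exact Ge.zero
      · right
        rw [ord_under]
        have : 0 ≤ (ram K P : ℤ) * (under K P).ord (((D (unif (under K P)))⁻¹ • D) x) :=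
          mul_nonneg hr.le h1
        omega
    · push Not at ha
      have hM' : (ram K P : ℤ) ≤ M := by
        rcases hM with h | h
        · exfalso
          rw [h, mul_zero, neg_zero] at hx2
          have := mul_neg_of_pos_of_neg hr ha
          omega
        · exact h
      right
      have h2 := ord_der (under K P) hD (f := x) ha.ne
      rw [Derivation.coe_smul, Pi.smul_apply, smul_eq_mul, ord_under, (under K P).ord_mul
        (inv_ne_zero hu) h2.1, Place.ord_inv, h2.2]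
      unfold vo
      have e : (ram K P : ℤ) * (-(under K P).ord (D (unif (under K P))) +
          ((under K P).ord x - 1 + (under K P).ord (D (unif (under K P))))) =
          ram K P * (under K P).ord x - ram K P := by ring
      rw [e]
      omega

end filt

theorem tri_eq (m : ℕ) : tri m = ((∑ r : Fin m, (r : ℕ) : ℕ) : ℤ) := by
  unfold tri
  push_cast
  rfl

variable {k K K₁ N : Type} [Field k] [Field K] [Field K₁] [Field N] [Algebra k K] [Algebra k K₁]
  [Algebra K K₁] [IsScalarTower k K K₁] [Algebra k N] [Algebra K N] [IsScalarTower k K N]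
  [FiniteDimensional K K₁] [CharZero K] [IsAlgClosed k] [CharZero k] [IsFF k K] [IsFF k N]

/-- the local height -/
noncomputable def lh (P : Place k N) {m : ℕ} (β : Fin (m + 1) → K₁) (σ : K₁ →ₐ[K] N) : ℤ :=
  -pord P fun j => σ (β j)

theorem lh_nonneg (P : Place k N) {m : ℕ} {β : Fin (m + 1) → K₁} (h0 : β 0 = 1)
    (σ : K₁ →ₐ[K] N) : 0 ≤ lh P β σ := by
  have h1 := pord_le P (f := fun j => σ (β j)) (j := 0) (by simp [h0])
  simp only [h0, map_one, P.ord_one] at h1
  unfold lh
  omega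

theorem ge_lh (P : Place k N) {m : ℕ} (β : Fin (m + 1) → K₁) (σ : K₁ →ₐ[K] N)
    (j : Fin (m + 1)) : Ge P (-lh P β σ) (σ (β j)) := by
  unfold lh
  rw [neg_neg]
  exact ge_pord P (fun j => σ (β j)) j

theorem ge_gen (hk : ∀ c : k, ∀ σ : K₁ →ₐ[K] N, σ (algebraMap k K₁ c) = algebraMap k N c)
    (P : Place k N) (pb : PowerBasis K K₁) {m : ℕ} {β : Fin (m + 1) → K₁}
    {s : Fin (m + 1) → k} (hs : pb.gen = ∑ j, algebraMap k K₁ (s j) * β j) (σ : K₁ →ₐ[K] N) :
    Ge P (-lh P β σ) (σ pb.gen) := by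
  rw [hs, map_sum]
  refine Ge.sum _ _ fun j _ => ?_
  rw [map_mul, hk]
  have := (Ge.const (P := P) (s j)).mul (ge_lh P β σ j)
  rwa [zero_add] at this

theorem map_const (c : k) (σ : K₁ →ₐ[K] N) : σ (algebraMap k K₁ c) = algebraMap k N c := by
  rw [IsScalarTower.algebraMap_apply k K K₁, AlgHom.commutes, ← IsScalarTower.algebraMap_apply]

/-- **The local inequality.** -/
theorem loc_ineq (hE : Emb K K₁ N) (P : Place k N) (pb : PowerBasis K K₁) {m q : ℕ}
    {β : Fin (m + 1) → K₁} (hβ0 : ∀ j, β j ≠ 0)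
    {D : Derivation k K K} (hD : D ≠ 0) {D₁ : Derivation k K₁ K₁}
    (hD₁ : ∀ x : K, D₁ (algebraMap K K₁ x) = algebraMap K K₁ (D x)) (hN : m ≤ q)
    (hsum : ∑ j, β j ^ q = 0)
    (hW : wr D₁ (fun l => β ((Fin.last m).succAbove l) ^ q) ≠ 0) {M : ℤ}
    (hM : M = 0 ∨ (ram K P : ℤ) ≤ M)
    (hM1 : ∀ i : ℕ, Ge P (-M) (algebraMap K N ((minpoly K pb.gen).coeff i)))
    (hM2 : Ge P (-M) (algebraMap K N (dsc pb)⁻¹))
    (hM3 : ∀ j i, Ge P (-M) (algebraMap K N (dsc pb * pb.basis.repr (β j) i))) :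
    ((q - m : ℕ) : ℤ) * ∑ σ : K₁ →ₐ[K] N, lh P β σ ≤
      E4 pb.dim (2 + pb.dim) m * M +
      P.ord (algebraMap K N (Algebra.norm K (wr D₁ fun l => β ((Fin.last m).succAbove l) ^ q))) -
      ((q - m : ℕ) : ℤ) * ∑ j, P.ord (algebraMap K N (Algebra.norm K (β j))) -
      pb.dim * tri m * (ram K P * vo (under K P) D) := by
  classical
  obtain ⟨u, hu⟩ : ∃ u, u = D (unif (under K P)) := ⟨_, rfl⟩
  have hu0 : u ≠ 0 := by rw [hu]; exact der_pi_ne_zero hD _ (ord_unif _)
  have F := filt (N := N) P hD hM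
  rw [← hu] at F
  obtain ⟨u₁, hu₁⟩ : ∃ u₁, u₁ = algebraMap K K₁ u := ⟨_, rfl⟩
  have hu₁0 : u₁ ≠ 0 := by rw [hu₁, Ne, map_eq_zero]; exact hu0
  obtain ⟨D₂, hD₂⟩ : ∃ D₂ : Derivation k K₁ K₁, D₂ = u₁⁻¹ • D₁ := ⟨_, rfl⟩
  have hD₂' : ∀ x : K, D₂ (algebraMap K K₁ x) = algebraMap K K₁ ((u⁻¹ • D) x) := by
    intro x
    rw [hD₂, Derivation.coe_smul, Pi.smul_apply, smul_eq_mul, hD₁, Derivation.coe_smul,
      Pi.smul_apply, smul_eq_mul, map_mul, map_inv₀, hu₁]
  have hD₁₂ : D₁ = u₁ • D₂ := by rw [hD₂, smul_smul, mul_inv_cancel₀ hu₁0, one_smul]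
  have hG : ∀ {A : ℕ} {x : K}, GP (K := K) P M A x ↔ Ge P (-(A * M)) (algebraMap K N x) :=
    Iff.rfl
  have hf : ∀ i, GP (K := K) P M 1 ((minpoly K pb.gen).coeff i) := by
    intro i
    rw [hG, Nat.cast_one, one_mul]
    exact hM1 i
  have hδ : GP (K := K) P M 1 (dsc pb)⁻¹ := by
    rw [hG, Nat.cast_one, one_mul]
    exact hM2
  have hrepr : ∀ j i, GP (K := K) P M 2 (pb.basis.repr (β j) i) := by
    intro j i
    have h1 : pb.basis.repr (β j) i = (dsc pb)⁻¹ * (dsc pb * pb.basis.repr (β j) i) := by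
      rw [inv_mul_cancel_left₀ (dsc_ne pb)]
    rw [h1]
    refine F.mul (A := 1) (A' := 1) hδ ?_
    rw [hG, Nat.cast_one, one_mul]
    exact hM3 j i
  have hHG : ∀ j, HG pb (GP (K := K) P M) (2 + pb.dim) (β j) := by
    intro j
    have e : β j = ∑ i, algebraMap K K₁ (pb.basis.repr (β j) i) * pb.gen ^ (i : ℕ) := by
      conv_lhs => rw [← pb.basis.sum_repr (β j)]
      refine Finset.sum_congr rfl fun i _ => ?_
      rw [pb.basis_eq_pow, Algebra.smul_def]
    rw [e]
    refine HG.sum F _ _ fun i _ => ?_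
    have h1 := HG.pow F (HG.gen F hf) (i : ℕ)
    rw [mul_one] at h1
    refine HG.mul F (HG.of F (hrepr j i)) (HG.mono F i.2.le h1)
  -- generic constants
  obtain ⟨t, ht⟩ := exists_generic P (fun (σ : K₁ →ₐ[K] N) j => σ (β j) ^ (q - m))
    (fun σ => ((q - m : ℕ) : ℤ) * -lh P β σ) (fun σ j => (ge_lh P β σ j).pow _) (by
      intro σ
      obtain ⟨j, hj, hj'⟩ := exists_pord P (f := fun j => σ (β j))
        ⟨0, by rw [Ne, map_eq_zero]; exact hβ0 0⟩
      refine ⟨j, pow_ne_zero _ hj, ?_⟩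
      rw [P.ord_pow]
      unfold lh
      rw [neg_neg]
      rw [hj'])
  obtain ⟨R, hR, hRe⟩ := alg_part (pb := pb) F hf hD₂' hδ hHG hN hsum t
  -- the change of the derivation
  have hwr : wr D₁ (fun l => β ((Fin.last m).succAbove l) ^ q) =
      u₁ ^ (∑ r : Fin m, (r : ℕ)) * wr D₂ (fun l => β ((Fin.last m).succAbove l) ^ q) := by
    have h1 := wr_change D₂ u₁ 1 fun l => β ((Fin.last m).succAbove l) ^ q
    simp only [one_mul, mul_one] at h1
    rw [← hD₁₂] at h1
    rw [h1, Finset.prod_pow_eq_pow_sum]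
  have hW2 : wr D₂ (fun l => β ((Fin.last m).succAbove l) ^ q) ≠ 0 := by
    intro h
    rw [hwr, h, mul_zero] at hW
    exact hW rfl
  have hn0 : ∀ x : K₁, x ≠ 0 → algebraMap K N (Algebra.norm K x) ≠ 0 := by
    intro x hx
    rw [Ne, map_eq_zero, Algebra.norm_eq_zero_iff]
    exact hx
  have hnW : P.ord (algebraMap K N (Algebra.norm K (wr D₁
      (fun l => β ((Fin.last m).succAbove l) ^ q)))) =
      pb.dim * tri m * (ram K P * vo (under K P) D) + P.ord (algebraMap K N (Algebra.norm K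
        (wr D₂ (fun l => β ((Fin.last m).succAbove l) ^ q)))) := by
    rw [hwr, map_mul, map_mul, P.ord_mul (hn0 _ (pow_ne_zero _ hu₁0)) (hn0 _ hW2), map_pow,
      map_pow, P.ord_pow, hu₁, Algebra.norm_algebraMap, map_pow, P.ord_pow, ord_under, pb.finrank,
      ← tri_eq, hu]
    unfold vo
    ring
  -- the order of the generic combination
  have hT0 : (∑ j, algebraMap k K₁ (t j) * β j ^ (q - m)) ≠ 0 := by
    intro h
    obtain ⟨σ⟩ : Nonempty (K₁ →ₐ[K] N) := by
      rw [← Fintype.card_pos_iff, hE.card]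
      exact Module.finrank_pos
    apply (ht σ).1
    have h1 := congrArg σ h
    rw [map_zero, map_sum] at h1
    rw [← h1]
    refine Finset.sum_congr rfl fun j _ => ?_
    rw [map_mul, map_const, map_pow]
  have hT : P.ord (algebraMap K N (Algebra.norm K (∑ j, algebraMap k K₁ (t j) *
      β j ^ (q - m)))) = ∑ σ : K₁ →ₐ[K] N, ((q - m : ℕ) : ℤ) * -lh P β σ := by
    rw [hE.norm, ord_prod P _ _ fun σ _ => by rw [Ne, map_eq_zero]; exact hT0]
    refine Finset.sum_congr rfl fun σ _ => ?_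
    rw [← (ht σ).2, map_sum]
    congr 1
    refine Finset.sum_congr rfl fun j _ => ?_
    rw [map_mul, map_const, map_pow]
  have h1 := congrArg (fun x => P.ord (algebraMap K N x)) hRe
  have hpr0 : (∏ j, Algebra.norm K (β j)) ≠ 0 :=
    Finset.prod_ne_zero_iff.2 fun j _ => by rw [Ne, Algebra.norm_eq_zero_iff]; exact hβ0 j
  have hR0 : R ≠ 0 := by
    rintro rfl
    rw [mul_zero] at hRe
    rcases mul_eq_zero.1 hRe with h | h
    · exact hW2 ((Algebra.norm_eq_zero_iff).1 h)
    · exact hT0 ((Algebra.norm_eq_zero_iff).1 h)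
  have hRN : algebraMap K N R ≠ 0 := by rwa [Ne, map_eq_zero]
  have hPN : algebraMap K N ((∏ j, Algebra.norm K (β j)) ^ (q - m)) ≠ 0 := by
    rw [Ne, map_eq_zero]
    exact pow_ne_zero _ hpr0
  beta_reduce at h1
  rw [map_mul, P.ord_mul (hn0 _ hW2) (hn0 _ hT0), hT, map_mul, P.ord_mul hPN hRN, map_pow,
    P.ord_pow, map_prod, ord_prod P _ _ fun j _ => hn0 _ (hβ0 j)] at h1
  have h2 := (hG.1 hR).resolve_left hRN
  rw [hnW, ← sub_nonneg]
  rw [← Finset.mul_sum, Finset.sum_neg_distrib] at h1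
  linarith

end Pool.Agent.Y221.AH
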