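import Pool.Agent.Y221.AH.Emb

/-!
Lower bounds for the orders of the coefficients attached to a finite extension, at a place of
a field which contains the conjugates.
-/

set_option autoImplicit false
set_option maxHeartbeats 400000
set_option linter.overlappingInstances false
set_option linter.unusedSectionVars false

open FF Pool.Agent.W603.LV Pool.Agent.W603.PV Polynomial IntermediateField

namespace Pool.Agent.Y221.AH

section poly

variable {k N : Type} [Field k] [Field N] [Algebra k N] (P : Place k N)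

theorem ge_coeff_mul {p q : N[X]} {a b : ℤ} (hp : ∀ i, Ge P a (p.coeff i))
    (hq : ∀ i, Ge P b (q.coeff i)) (i : ℕ) : Ge P (a + b) ((p * q).coeff i) := by
  rw [coeff_mul]
  exact Ge.sum _ _ fun x _ => (hp _).mul (hq _)

theorem ge_coeff_prod {ι : Type*} (s : Finset ι) (x : ι → N) (a : ι → ℤ) (ha : ∀ i, a i ≤ 0)
    (hx : ∀ i, Ge P (a i) (x i)) : ∀ n : ℕ,
    Ge P (∑ i ∈ s, a i) ((∏ i ∈ s, (X - C (x i))).coeff n) := by
  classical
  induction s using Finset.induction_on with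
  | empty =>
    intro n
    rw [Finset.sum_empty, Finset.prod_empty, coeff_one]
    split_ifs
    · exact Ge.one
    · exact Ge.zero
  | insert i s hi ih =>
    rw [Finset.sum_insert hi, Finset.prod_insert hi]
    refine ge_coeff_mul P (fun n => ?_) ih
    rw [coeff_sub, coeff_X, coeff_C]
    refine Ge.sub ?_ ?_
    · split_ifs
      · exact Ge.one.mono (ha i)
      · exact Ge.zero
    · split_ifs
      · exact hx i
      · exact Ge.zero

/-- a generic combination -/
theorem exists_generic [IsAlgClosed k] [CharZero k] [IsFF k N] {Λ : Type} [Fintype Λ] {m : ℕ}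
    (v : Λ → Fin (m + 1) → N) (a : Λ → ℤ) (hv : ∀ σ j, Ge P (a σ) (v σ j))
    (hex : ∀ σ, ∃ j, v σ j ≠ 0 ∧ P.ord (v σ j) = a σ) :
    ∃ t : Fin (m + 1) → k, ∀ σ, (∑ j, algebraMap k N (t j) * v σ j) ≠ 0 ∧
      P.ord (∑ j, algebraMap k N (t j) * v σ j) = a σ := by
  classical
  choose j0 hj0 hj0' using hex
  have h1 : ∀ σ j, ∃ c : k, Ge P 1 (v σ j / v σ (j0 σ) - algebraMap k N c) := by
    intro σ j
    apply Pool.Agent.W603.LV.exists_const
    apply Ge.of_mul' (h := v σ (j0 σ)) (m := a σ) (hj0 σ) (hj0' σ)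
    rw [mul_div_cancel₀ _ (hj0 σ), zero_add]
    exact hv σ j
  choose c hc using h1
  let p : Λ → k[X] := fun σ => ∑ j : Fin (m + 1), C (c σ j) * X ^ (j : ℕ)
  have hp : ∀ σ, p σ ≠ 0 := by
    intro σ h0
    have h2 := congrArg (fun q => q.coeff (j0 σ : ℕ)) h0
    simp only [p, finsetSum_coeff, coeff_C_mul, coeff_X_pow, coeff_zero, mul_ite, mul_one,
      mul_zero] at h2
    rw [Finset.sum_eq_single (j0 σ)] at h2
    · rw [if_pos rfl] at h2
      have h3 := hc σ (j0 σ)
      rw [h2, map_zero, sub_zero, div_self (hj0 σ)] at h3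
      rcases h3 with h3 | h3
      · exact one_ne_zero h3
      · rw [P.ord_one] at h3
        omega
    · intro b _ hb
      rw [if_neg fun h => hb (Fin.ext h.symm)]
    · intro h
      exact absurd (Finset.mem_univ _) h
  have hprod : ∏ σ, p σ ≠ 0 := Finset.prod_ne_zero_iff.2 fun σ _ => hp σ
  obtain ⟨τ, hτ⟩ : ∃ τ : k, (∏ σ, p σ).eval τ ≠ 0 := by
    by_contra hcon
    push Not at hcon
    exact hprod (Polynomial.funext fun τ => by rw [hcon τ, eval_zero])
  rw [eval_prod, Finset.prod_ne_zero_iff] at hτ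
  refine ⟨fun j => τ ^ (j : ℕ), fun σ => ?_⟩
  have h4 : ∑ j : Fin (m + 1), algebraMap k N (τ ^ (j : ℕ)) * v σ j = v σ (j0 σ) *
      (algebraMap k N ((p σ).eval τ) + ∑ j : Fin (m + 1), algebraMap k N (τ ^ (j : ℕ)) *
        (v σ j / v σ (j0 σ) - algebraMap k N (c σ j))) := by
    have h5 : algebraMap k N ((p σ).eval τ) =
        ∑ j : Fin (m + 1), algebraMap k N (τ ^ (j : ℕ)) * algebraMap k N (c σ j) := by
      simp only [p, eval_finsetSum, eval_mul, eval_C, eval_pow, eval_X, map_sum, map_mul]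
      exact Finset.sum_congr rfl fun _ _ => mul_comm _ _
    rw [h5, ← Finset.sum_add_distrib, Finset.mul_sum]
    refine Finset.sum_congr rfl fun j _ => ?_
    have := hj0 σ
    field_simp
    ring
  have hne := hτ σ (Finset.mem_univ σ)
  have h6 : Ge P 1 (∑ j : Fin (m + 1), algebraMap k N (τ ^ (j : ℕ)) *
        (v σ j / v σ (j0 σ) - algebraMap k N (c σ j))) := by
    refine Ge.sum _ _ fun j _ => ?_
    have := (Ge.const (P := P) (τ ^ (j : ℕ))).mul (hc σ j)
    rwa [zero_add] at this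
  have hne' : algebraMap k N ((p σ).eval τ) ≠ 0 := by
    rwa [Ne, map_eq_zero]
  have h7 : (algebraMap k N ((p σ).eval τ) + ∑ j : Fin (m + 1), algebraMap k N (τ ^ (j : ℕ)) *
        (v σ j / v σ (j0 σ) - algebraMap k N (c σ j))) ≠ 0 ∧
      P.ord (algebraMap k N ((p σ).eval τ) + ∑ j : Fin (m + 1), algebraMap k N (τ ^ (j : ℕ)) *
        (v σ j / v σ (j0 σ) - algebraMap k N (c σ j))) = 0 := by
    rcases h6 with h6 | h6
    · rw [h6, add_zero]
      exact ⟨hne', P.ord_const hne⟩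
    · by_cases h8 : (∑ j : Fin (m + 1), algebraMap k N (τ ^ (j : ℕ)) *
        (v σ j / v σ (j0 σ) - algebraMap k N (c σ j))) = 0
      · rw [h8, add_zero]
        exact ⟨hne', P.ord_const hne⟩
      · have h9 := P.ord_add_eq (f := algebraMap k N ((p σ).eval τ)) (g := (∑ j : Fin (m + 1),
          algebraMap k N (τ ^ (j : ℕ)) * (v σ j / v σ (j0 σ) - algebraMap k N (c σ j)))) hne' h8
          (by rw [P.ord_const hne]; omega)
        rw [P.ord_const hne] at h9
        exact h9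
  change (∑ j : Fin (m + 1), algebraMap k N (τ ^ (j : ℕ)) * v σ j) ≠ 0 ∧
    P.ord (∑ j : Fin (m + 1), algebraMap k N (τ ^ (j : ℕ)) * v σ j) = a σ
  rw [h4]
  exact ⟨mul_ne_zero (hj0 σ) h7.1, by rw [P.ord_mul (hj0 σ) h7.1, h7.2, hj0', add_zero]⟩

end poly

variable {k K K₁ N : Type} [Field k] [Field K] [Field K₁] [Field N] [Algebra k K] [Algebra k K₁]
  [Algebra K K₁] [IsScalarTower k K K₁] [Algebra k N] [Algebra K N] [IsScalarTower k K N]
  [FiniteDimensional K K₁] [CharZero K]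

/-- the discriminant -/
noncomputable def dsc (pb : PowerBasis K K₁) : K :=
  Algebra.norm K (aeval pb.gen (derivative (minpoly K pb.gen)))

theorem dsc_ne (pb : PowerBasis K K₁) : dsc pb ≠ 0 := by
  unfold dsc
  rw [Ne, Algebra.norm_eq_zero_iff]
  have hsep : (minpoly K pb.gen).Separable := (minpoly.irreducible pb.isIntegral_gen).separable
  exact hsep.aeval_derivative_ne_zero (minpoly.aeval K pb.gen)

variable (hE : Emb K K₁ N) (P : Place k N) (pb : PowerBasis K K₁) (h : (K₁ →ₐ[K] N) → ℤ)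
  (h0 : ∀ σ, 0 ≤ h σ) (hg : ∀ σ : K₁ →ₐ[K] N, Ge P (-h σ) (σ pb.gen))

include hE h0 hg

theorem ge_minpoly (i : ℕ) :
    Ge P (-∑ σ, h σ) (algebraMap K N ((minpoly K pb.gen).coeff i)) := by
  have h1 := ge_coeff_prod P Finset.univ (fun σ : K₁ →ₐ[K] N => σ pb.gen) (fun σ => -h σ)
    (fun σ => by have := h0 σ; omega) hg i
  rw [← hE.minpoly pb, coeff_map, Finset.sum_neg_distrib] at h1
  exact h1

omit hE hg in
theorem le_sum (σ : K₁ →ₐ[K] N) : h σ ≤ ∑ σ, h σ :=
  Finset.single_le_sum (f := h) (fun σ _ => h0 σ) (Finset.mem_univ σ)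

theorem ge_der (σ : K₁ →ₐ[K] N) :
    Ge P (-(pb.dim * ∑ σ, h σ)) (σ (aeval pb.gen (derivative (minpoly K pb.gen)))) := by
  have hH := le_sum h h0 σ
  have hs := h0 σ
  set H := ∑ σ, h σ
  have hdeg : (minpoly K pb.gen).natDegree = pb.dim := pb.natDegree_minpoly
  have hdim : 0 < pb.dim := pb.dim_pos
  have hlt : (derivative (minpoly K pb.gen)).natDegree < pb.dim := by
    rw [← hdeg]
    exact natDegree_derivative_lt (by omega)
  rw [← Polynomial.aeval_algHom_apply, aeval_eq_sum_range' hlt]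
  refine Ge.sum _ _ fun i hi => ?_
  rw [Algebra.smul_def, coeff_derivative, map_mul, map_add, map_natCast, map_one]
  have hi' := Finset.mem_range.1 hi
  have h1 := ge_minpoly hE P pb h h0 hg (i + 1)
  have h2 : Ge P 0 ((i : N) + 1) := Ge.add (Ge.natCast i) Ge.one
  have h3 := (hg σ).pow i
  refine ((h1.mul h2).mul h3).mono ?_
  have h4 : (i : ℤ) * h σ ≤ (pb.dim - 1 : ℤ) * H := by
    have h5 : (i : ℤ) ≤ pb.dim - 1 := by omega
    have h6 : (0 : ℤ) ≤ pb.dim - 1 := by omega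
    exact mul_le_mul h5 hH hs h6
  change -(pb.dim * H) ≤ -H + 0 + i * -h σ
  linarith

theorem ge_dsc : Ge P (-(pb.dim * (pb.dim * ∑ σ, h σ))) (algebraMap K N (dsc pb)) := by
  unfold dsc
  rw [hE.norm]
  have h1 := Ge.prod Finset.univ (fun σ : K₁ →ₐ[K] N => σ (aeval pb.gen (derivative
    (minpoly K pb.gen)))) (fun _ => -(pb.dim * ∑ σ, h σ)) fun σ _ => ge_der hE P pb h h0 hg σ
  refine h1.mono (le_of_eq ?_)
  rw [Finset.sum_const, Finset.card_univ, hE.card, pb.finrank, nsmul_eq_mul]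
  ring

theorem ge_mdiv (σ : K₁ →ₐ[K] N) : ∀ j : ℕ, j ≤ pb.dim →
    Ge P (-(∑ σ, h σ + j * h σ)) (σ ((minpolyDiv K pb.gen).coeff (pb.dim - j))) := by
  intro j
  have hdeg : (minpoly K pb.gen).natDegree = pb.dim := pb.natDegree_minpoly
  have hdim : 0 < pb.dim := pb.dim_pos
  induction j with
  | zero =>
    intro _
    rw [Nat.sub_zero, coeff_eq_zero_of_natDegree_lt, map_zero]
    · exact Ge.zero
    · rw [natDegree_minpolyDiv, hdeg]
      omega
  | succ j ih =>
    intro hj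
    have e : pb.dim - (j + 1) + 1 = pb.dim - j := by omega
    rw [coeff_minpolyDiv, e, map_add, map_mul, AlgHom.commutes]
    refine Ge.add ?_ ?_
    · refine (ge_minpoly hE P pb h h0 hg _).mono ?_
      have := h0 σ
      have : (0 : ℤ) ≤ ((j + 1 : ℕ) : ℤ) * h σ := mul_nonneg (by positivity) this
      omega
    · refine ((ih (by omega)).mul (hg σ)).mono (le_of_eq ?_)
      push_cast
      ring

theorem ge_mdiv' (σ : K₁ →ₐ[K] N) (i : Fin pb.dim) :
    Ge P (-((pb.dim + 1) * ∑ σ, h σ)) (σ ((minpolyDiv K pb.gen).coeff i)) := by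
  have h1 := ge_mdiv hE P pb h h0 hg σ (pb.dim - i) (Nat.sub_le _ _)
  have e : pb.dim - (pb.dim - (i : ℕ)) = i := by have := i.2; omega
  rw [e] at h1
  refine h1.mono ?_
  have hH := le_sum h h0 σ
  have hs := h0 σ
  have h4 : ((pb.dim - (i : ℕ) : ℕ) : ℤ) * h σ ≤ (pb.dim : ℤ) * ∑ σ, h σ :=
    mul_le_mul (by omega) hH hs (by positivity)
  linarith

theorem ge_repr {y : K₁} (hy : ∀ σ : K₁ →ₐ[K] N, Ge P (-h σ) (σ y)) (i : Fin pb.dim) :
    Ge P (-((pb.dim * pb.dim + 2) * ∑ σ, h σ)) (algebraMap K N (dsc pb * pb.basis.repr y i)) := by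
  classical
  set y' := aeval pb.gen (derivative (minpoly K pb.gen)) with hy'
  have hsep : (minpoly K pb.gen).Separable := (minpoly.irreducible pb.isIntegral_gen).separable
  have hy0 : y' ≠ 0 := hsep.aeval_derivative_ne_zero (minpoly.aeval K pb.gen)
  obtain ⟨H, hHd⟩ : ∃ H, H = ∑ σ, h σ := ⟨_, rfl⟩
  rw [← hHd, map_mul, repr_trace pb y i, hE.tr, Finset.mul_sum]
  refine Ge.sum _ _ fun σ _ => ?_
  have h1 : algebraMap K N (dsc pb) = σ y' * ∏ τ ∈ (Finset.univ : Finset (K₁ →ₐ[K] N)).erase σ, τ y' := by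
    unfold dsc
    rw [hE.norm, Finset.mul_prod_erase _ (fun τ : K₁ →ₐ[K] N => τ y') (Finset.mem_univ σ)]
  have h2 : algebraMap K N (dsc pb) * σ (y * ((minpolyDiv K pb.gen).coeff i / y')) =
      σ y * σ ((minpolyDiv K pb.gen).coeff i) * ∏ τ ∈ (Finset.univ : Finset (K₁ →ₐ[K] N)).erase σ, τ y' := by
    rw [h1, map_mul, map_div₀]
    have : σ y' ≠ 0 := by rwa [Ne, map_eq_zero]
    field_simp
  rw [h2]
  have h3 := Ge.prod (P := P) (Finset.univ.erase σ) (fun τ : K₁ →ₐ[K] N => τ y')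
    (fun _ => -(pb.dim * ∑ σ, h σ)) fun τ _ => ge_der hE P pb h h0 hg τ
  refine (((hy σ).mul (ge_mdiv' hE P pb h h0 hg σ i)).mul h3).mono ?_
  rw [Finset.sum_const, Finset.card_erase_of_mem (Finset.mem_univ _), Finset.card_univ, hE.card,
    pb.finrank, nsmul_eq_mul]
  have hH := le_sum h h0 σ
  have hdim : 0 < pb.dim := pb.dim_pos
  have e : ((pb.dim - 1 : ℕ) : ℤ) = pb.dim - 1 := by omega
  rw [e, ← hHd]
  rw [← hHd] at hH
  generalize (pb.dim : ℤ) = n
  nlinarith

end Pool.Agent.Y221.AH
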