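import Pool.Agent.Y221.AH.Blk
import Pool.Agent.W603.CX.AllMaps
import Pool.Agent.W602.GT.PsDefs

/-!
Sparse systems of high powers: the heights of the points over extensions of bounded degree.
-/

set_option autoImplicit false
set_option maxHeartbeats 400000
set_option linter.overlappingInstances false
set_option linter.unusedSectionVars false

open FF MvPolynomial Pool.Agent.W603.LV Pool.Agent.W603.PV
open Pool.Agent.Y221.AB (NB)
open Pool.Agent.W603.CX (HasOrbit Pts parts_zero)
open Pool.Agent.W602.GT (IsPowSparse)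

namespace Pool.Agent.Y221.AH

section eq

variable {k K E : Type} [Field k] [Field K] [Field E] [Algebra k K] [Algebra k E] [Algebra K E]
  [IsScalarTower k K E] [FiniteDimensional K E] [CharZero k] [IsAlgClosed k] [IsFF k K] [IsFF k E]

/-- One equation at a function field point. -/
theorem eq_blocks {n : ℕ} {r s : ℕ} (hr : Module.finrank K E ≤ r) (F : MvPolynomial (Fin n) k)
    (hFs : F.support.card ≤ s) {N : ℕ} (hN : NB r s ≤ N)
    (hdiv : ∀ α ∈ F.support, ∀ j, N ∣ α j) (J0 : Finset (Fin n)) (f : Fin n → E)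
    (hf0 : ∀ j ∈ J0, f j = 0) (hf1 : ∀ j, j ∉ J0 → f j ≠ 0)
    (hrel : aeval f F = 0)
    (y : Fin n → E) (hy : ∀ l, y l = if l ∈ J0 then 1 else f l) :
    ∃ Q : Finset (Fin n → ℤ),
      Q ⊆ Finset.image₂ (fun α β : Fin n →₀ ℕ => fun l => (α l : ℤ) - β l) F.support F.support ∧
      (∀ q ∈ Q, hgt k (mon y q) ≤ s * (N * (r * tri s * max (canDeg k K) 0))) ∧
      ∀ b : Fin n → ℤ, (∀ q ∈ Q, ∑ l, b l * q l = 0) → ∀ v : ℤ,
        aeval f (sub F (F.support.filter fun α => ∑ j, (α j : ℤ) * b j = v)) = 0 := by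
  classical
  have hy0 : ∀ l, y l ≠ 0 := by
    intro l
    rw [hy]
    split_ifs with h
    · exact one_ne_zero
    · exact hf1 l h
  set T : Finset (Fin n →₀ ℕ) := F.support.filter fun α => ∀ j ∈ J0, α j = 0 with hT
  have hTs : ∀ α ∈ T, α ∈ F.support := fun α hα => (Finset.mem_filter.1 hα).1
  have hT0 : ∀ α ∈ T, ∀ j ∈ J0, α j = 0 := fun α hα => (Finset.mem_filter.1 hα).2
  set t : (Fin n →₀ ℕ) → E := fun α => algebraMap k E (F.coeff α) * ∏ j, f j ^ α j with ht
  -- terms outside `T` vanish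
  have hvan : ∀ α ∈ F.support, α ∉ T → t α = 0 := by
    intro α hα hαT
    have h1 : ∃ j ∈ J0, α j ≠ 0 := by
      by_contra hcon
      push Not at hcon
      exact hαT (Finset.mem_filter.2 ⟨hα, hcon⟩)
    obtain ⟨j, hj, hαj⟩ := h1
    simp only [ht]
    rw [Finset.prod_eq_zero (Finset.mem_univ j), mul_zero]
    rw [hf0 j hj, zero_pow hαj]
  have hmonT : ∀ α ∈ T, ∏ j, f j ^ α j = mon y (fun l => (α l : ℤ)) := by
    intro α hα
    unfold mon
    refine Finset.prod_congr rfl fun j _ => ?_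
    rw [hy, zpow_natCast]
    split_ifs with h
    · rw [hT0 α hα j h, pow_zero, pow_zero]
    · rfl
  have ht0 : ∀ α ∈ T, t α ≠ 0 := by
    intro α hα
    refine mul_ne_zero ?_ ?_
    · rw [Ne, map_eq_zero]
      exact mem_support_iff.1 (hTs α hα)
    · rw [hmonT α hα]
      exact mon_ne hy0 _
  let g : T → E := fun α => t α
  have hg0 : ∀ α, g α ≠ 0 := fun α => ht0 α α.2
  have hsum : ∑ α, g α = 0 := by
    rw [Finset.sum_coe_sort T t, ← hrel, aeval_eq_sub]
    refine Finset.sum_subset (fun α hα => hTs α hα) fun α hα hαT => ?_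
    exact hvan α hα hαT
  have hordt : ∀ (P : Place k E), ∀ α ∈ T, P.ord (t α) = ∑ j, (α j : ℤ) * P.ord (y j) := by
    intro P α hα
    simp only [ht]
    rw [P.ord_mul (by rw [Ne, map_eq_zero]; exact mem_support_iff.1 (hTs α hα))
      (by rw [hmonT α hα]; exact mon_ne hy0 _), P.ord_const (mem_support_iff.1 (hTs α hα)),
      zero_add, hmonT α hα]
    unfold mon
    have h3 : ∀ s : Finset (Fin n), P.ord (∏ l ∈ s, y l ^ (α l : ℤ)) =
        ∑ l ∈ s, (α l : ℤ) * P.ord (y l) := by
      intro s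
      induction s using Finset.induction_on with
      | empty => simpa using P.ord_one
      | insert a s ha ih =>
        rw [Finset.prod_insert ha, Finset.sum_insert ha, P.ord_mul (zpow_ne_zero _ (hy0 a))
          (Finset.prod_ne_zero_iff.2 fun l _ => zpow_ne_zero _ (hy0 l)), ih, P.ord_zpow]
    exact h3 Finset.univ
  have hcard : Fintype.card T ≤ s := by
    rw [Fintype.card_coe]
    exact (Finset.card_filter_le _ _).trans hFs
  obtain ⟨R, hRe, hRh, hRs⟩ := blocks (K := K) (k := k) hr hcard hN g hg0 hsum (by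
    intro α
    refine ⟨F.coeff α, ∏ j, f j ^ ((α : Fin n →₀ ℕ) j / N), ?_⟩
    change algebraMap k E (F.coeff α) * ∏ j, f j ^ (α : Fin n →₀ ℕ) j = _
    congr 1
    rw [← Finset.prod_pow]
    refine Finset.prod_congr rfl fun j _ => ?_
    rw [← pow_mul, Nat.div_mul_cancel (hdiv α (hTs α α.2) j)])
  refine ⟨((Finset.univ : Finset (T × T)).filter fun p => R p.1 p.2).image
    (fun p l => (p.1.1 l : ℤ) - p.2.1 l), ?_, ?_, ?_⟩
  · intro q hq
    rw [Finset.mem_image] at hq
    obtain ⟨p, -, rfl⟩ := hq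
    rw [Finset.mem_image₂]
    exact ⟨p.1, hTs _ p.1.2, p.2, hTs _ p.2.2, rfl⟩
  · intro q hq
    rw [Finset.mem_image] at hq
    obtain ⟨p, hp, rfl⟩ := hq
    have h1 := hRh p.1 p.2 (Finset.mem_filter.1 hp).2
    refine le_trans (le_of_eq ?_) h1
    refine hgt_congr fun P => ?_
    change _ = P.ord (t p.1 / t p.2)
    rw [P.ord_div (ht0 _ p.1.2) (ht0 _ p.2.2), hordt P _ p.1.2, hordt P _ p.2.2]
    unfold mon
    have h3 : ∀ s : Finset (Fin n), P.ord (∏ l ∈ s, y l ^ ((p.1.1 l : ℤ) - p.2.1 l)) =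
        ∑ l ∈ s, ((p.1.1 l : ℤ) - p.2.1 l) * P.ord (y l) := by
      intro s
      induction s using Finset.induction_on with
      | empty => simpa using P.ord_one
      | insert a s ha ih =>
        rw [Finset.prod_insert ha, Finset.sum_insert ha, P.ord_mul (zpow_ne_zero _ (hy0 a))
          (Finset.prod_ne_zero_iff.2 fun l _ => zpow_ne_zero _ (hy0 l)), ih, P.ord_zpow]
    rw [h3 Finset.univ, ← Finset.sum_sub_distrib]
    exact Finset.sum_congr rfl fun j _ => by ring
  · intro b hb v
    have hw : ∀ α β : T, R α β → ∑ j, ((α : Fin n →₀ ℕ) j : ℤ) * b j =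
        ∑ j, ((β : Fin n →₀ ℕ) j : ℤ) * b j := by
      intro α β hαβ
      have h1 := hb (fun l => ((α : Fin n →₀ ℕ) l : ℤ) - (β : Fin n →₀ ℕ) l)
        (Finset.mem_image.2 ⟨(α, β), by simp [hαβ], rfl⟩)
      rw [← sub_eq_zero, ← h1, ← Finset.sum_sub_distrib]
      exact Finset.sum_congr rfl fun j _ => by ring
    rw [aeval_sub]
    change ∑ α ∈ F.support.filter (fun α => ∑ j, (α j : ℤ) * b j = v), t α = 0
    set A : Finset T := Finset.univ.filter fun α : T => ∑ j, ((α : Fin n →₀ ℕ) j : ℤ) * b j = v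
      with hA
    have h1 : ∑ α ∈ F.support.filter (fun α => ∑ j, (α j : ℤ) * b j = v), t α = ∑ α ∈ A, g α := by
      rw [hA, Finset.sum_filter, Finset.sum_filter]
      change _ = ∑ a : T, (if ∑ j, ((a : Fin n →₀ ℕ) j : ℤ) * b j = v then t a else 0)
      rw [Finset.sum_coe_sort T (fun a => if ∑ j, (a j : ℤ) * b j = v then t a else 0)]
      symm
      refine Finset.sum_subset (fun α hα => hTs α hα) fun α hα hαT => ?_
      rw [hvan α hα hαT, ite_self]
    rw [h1]
    let σ : Setoid T := ⟨R, hRe⟩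
    rw [← Finset.sum_fiberwise_of_maps_to (s := A) (t := A.image (Quotient.mk σ))
      (g := Quotient.mk σ) (fun α hα => Finset.mem_image_of_mem _ hα)]
    refine Finset.sum_eq_zero fun c hc => ?_
    rw [Finset.mem_image] at hc
    obtain ⟨α0, hα0, rfl⟩ := hc
    refine hRs α0 _ fun β => ?_
    rw [Finset.mem_filter]
    constructor
    · rintro ⟨-, h⟩
      exact hRe.symm (Quotient.exact h)
    · intro h
      refine ⟨?_, Quotient.sound (hRe.symm h)⟩
      rw [hA, Finset.mem_filter] at hα0 ⊢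
      exact ⟨Finset.mem_univ _, by rw [← hw α0 β h]; exact hα0.2⟩


end eq

/-- **Sparse systems.** -/
theorem all_maps {n : ℕ} {ι : Type} [Finite ι] {k : Type} [Field k] [IsAlgClosed k] [CharZero k]
    {r s N0 : ℕ} (hN0 : NB r s ≤ N0) (F : ι → MvPolynomial (Fin (n + 1)) k)
    (hF : ∀ i, IsPowSparse ∅ s N0 (F i)) (hno : ¬ HasOrbit ∅ F) :
    ∃ A : ℕ, ∀ (K E : Type) [Field K] [Field E] [Algebra k K] [Algebra k E] [Algebra K E]
      [IsScalarTower k K E] [FiniteDimensional K E] [IsFF k K] [IsFF k E],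
      Module.finrank K E ≤ r → ∀ f : Fin (n + 1) → E, (∃ j, f j ≠ 0) →
      (∀ i, aeval f (F i) = 0) → pht k f ≤ A * max (canDeg k K) 0 := by
  classical
  have := Fintype.ofFinite ι
  have hFh : ∀ i, ∃ d, (F i).IsHomogeneous d := fun i => (hF i).1
  have hFs : ∀ i, (F i).support.card ≤ s := fun i => (hF i).2.1
  have hFN : ∀ i, ∃ N', N0 ≤ N' ∧ ∀ α ∈ (F i).support, ∀ j, N' ∣ α j := fun i => by
    obtain ⟨-, -, N', h1, h2⟩ := hF i
    exact ⟨N', h1, fun α hα j => h2 α hα j (Set.notMem_empty j)⟩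
  choose N hN hdiv using hFN
  obtain ⟨B0, hB0⟩ : ∃ B0 : ℕ,
      B0 = ∑ i, s * (N i * (r * (tri s).toNat)) := ⟨_, rfl⟩
  set Δ : Finset (Fin (n + 1) → ℤ) := Finset.univ.biUnion fun i => Finset.image₂
    (fun α β : Fin (n + 1) →₀ ℕ => fun l => (α l : ℤ) - β l) (F i).support (F i).support with hΔ
  obtain ⟨C1, hC1⟩ : ∃ C1 : ℕ, C1 = ∑ J0 : Finset (Fin (n + 1)), ∑ j, ∑ Q ∈ Δ.powerset,
    cst J0 Q j := ⟨_, rfl⟩
  refine ⟨(n + 1) * (C1 * B0), ?_⟩
  intro K E _ _ _ _ _ _ _ _ _ hr f hfne hfF
  choose e he using hFh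
  set χ : ℤ := max (canDeg k K) 0 with hχ
  have hχ0 : 0 ≤ χ := le_max_right _ _
  -- a coordinate to divide by
  obtain ⟨l0, hl0⟩ := hfne
  obtain ⟨f', hf'⟩ : ∃ f' : Fin (n + 1) → E, f' = fun j => (f l0)⁻¹ * f j := ⟨_, rfl⟩
  have hf'0 : ∀ j, f' j = 0 ↔ f j = 0 := by
    intro j
    rw [hf']
    simp [hl0]
  have hf'l0 : f' l0 = 1 := by
    rw [hf']
    exact inv_mul_cancel₀ hl0
  have hf'F : ∀ i, aeval f' (F i) = 0 := by
    intro i
    rw [hf', aeval_scale (he i), hfF i, mul_zero]
  set J0 : Finset (Fin (n + 1)) := Finset.univ.filter fun j => f' j = 0 with hJ0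
  have hf0 : ∀ j ∈ J0, f' j = 0 := fun j hj => (Finset.mem_filter.1 hj).2
  have hf1 : ∀ j, j ∉ J0 → f' j ≠ 0 := fun j hj h =>
    hj (Finset.mem_filter.2 ⟨Finset.mem_univ _, h⟩)
  have hl0J : l0 ∉ J0 := fun h => by
    have := hf0 l0 h
    rw [hf'l0] at this
    exact one_ne_zero this
  set y : Fin (n + 1) → E := fun l => if l ∈ J0 then 1 else f' l with hy
  have hy0 : ∀ l, y l ≠ 0 := by
    intro l
    simp only [hy]
    split_ifs with h
    · exact one_ne_zero
    · exact hf1 l h
  have hblk := fun i => eq_blocks (K := K) (k := k) hr (F i) (hFs i) (hN0.trans (hN i)) (hdiv i)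
    J0 f' hf0 hf1 (hf'F i) y (fun l => rfl)
  choose Qi hQs hQh hQb using hblk
  set Q : Finset (Fin (n + 1) → ℤ) := Finset.univ.biUnion Qi with hQ
  have hQΔ : Q ∈ Δ.powerset := by
    rw [Finset.mem_powerset]
    exact Finset.biUnion_mono fun i _ => hQs i
  have hQ' : ∀ i, ∀ q ∈ Qi i, q ∈ Q := fun i q hq =>
    Finset.mem_biUnion.2 ⟨i, Finset.mem_univ _, hq⟩
  have hQB : ∀ q ∈ Q, hgt k (mon y q) ≤ B0 * χ := by
    intro q hq
    obtain ⟨i, -, hqi⟩ := Finset.mem_biUnion.1 hq
    refine (hQh i q hqi).trans ?_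
    have h1 : ((s * (N i * (r * (tri s).toNat)) : ℕ) : ℤ) ≤ B0 := by
      rw [hB0]
      exact_mod_cast Finset.single_le_sum
        (f := fun i => s * (N i * (r * (tri s).toNat)))
        (fun _ _ => Nat.zero_le _) (Finset.mem_univ i)
    have h2 := mul_le_mul_of_nonneg_right h1 hχ0
    refine le_trans (le_of_eq ?_) h2
    rw [Nat.cast_mul, Nat.cast_mul, Nat.cast_mul, Int.toNat_of_nonneg (tri_nonneg _), hχ]
    ring
  -- each affine coordinate has small height
  have hcoord : ∀ j, hgt k (f' j) ≤ (C1 * B0 : ℕ) * χ := by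
    intro j
    by_cases hj : j ∈ J0
    · rw [hf0 j hj]
      have h1 : hgt k (0 : E) = 0 := by
        rw [hgt_finset (k := k) (0 : E) ∅ (fun P h => absurd P.ord_zero h)]
        rfl
      rw [h1]
      exact mul_nonneg (Nat.cast_nonneg _) hχ0
    · by_cases hjl : j = l0
      · rw [hjl, hf'l0, hgt_one]
        exact mul_nonneg (Nat.cast_nonneg _) hχ0
      have hj1 : j ∉ insert l0 J0 := by
        rw [Finset.mem_insert, not_or]
        exact ⟨hjl, hj⟩
      rcases dich (insert l0 J0) Q j with ⟨d, c, hd, hc⟩ | ⟨b, hbj, hb0, hbQ⟩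
      · have h1 := hgt_le_cst (k := k) hj1 ⟨c, d, hd, hc⟩ hy0
          (fun l hl => by
            rcases Finset.mem_insert.1 hl with rfl | hl
            · simp only [hy, if_neg hl0J, hf'l0]
            · simp only [hy, if_pos hl]) hQB
        have h2 : y j = f' j := by simp only [hy, if_neg hj]
        rw [h2] at h1
        refine h1.trans ?_
        have h3 : cst (insert l0 J0) Q j ≤ C1 := by
          rw [hC1]
          refine le_trans ?_ (Finset.single_le_sum
            (f := fun J0 : Finset (Fin (n + 1)) => ∑ j, ∑ Q ∈ Δ.powerset, cst J0 Q j)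
            (fun _ _ => Nat.zero_le _) (Finset.mem_univ (insert l0 J0)))
          refine le_trans ?_ (Finset.single_le_sum
            (f := fun j => ∑ Q ∈ Δ.powerset, cst (insert l0 J0) Q j) (fun _ _ => Nat.zero_le _)
            (Finset.mem_univ j))
          exact Finset.single_le_sum (f := fun Q => cst (insert l0 J0) Q j)
            (fun _ _ => Nat.zero_le _) hQΔ
        have h4 : (cst (insert l0 J0) Q j : ℤ) ≤ C1 := by exact_mod_cast h3
        have h5 : (0 : ℤ) ≤ B0 * χ := mul_nonneg (Nat.cast_nonneg _) hχ0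
        have h6 := mul_le_mul_of_nonneg_right h4 h5
        refine h6.trans (le_of_eq ?_)
        push_cast; ring
      · exfalso
        apply hno
        -- specialise at a place
        obtain ⟨T0, hT0⟩ := exists_supp (k := k) Finset.univ f'
        obtain ⟨P, hP⟩ := exists_place_not_mem (k := k) (K := E) T0
        have hord : ∀ l, P.ord (f' l) = 0 := by
          intro l
          by_contra h
          exact hP (hT0 l (Finset.mem_univ l) P h)
        have hfP : ∀ l, Ge P 0 (f' l) := fun l => Or.inr (hord l).ge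
        choose c hc using fun l => exists_const P (hfP l)
        have hred := red_mvaeval P hfP hc
        have hcne : ∀ l, f' l ≠ 0 → c l ≠ 0 := by
          intro l hl h0
          have h1 := hc l
          rw [h0, map_zero, sub_zero] at h1
          have h2 := h1.resolve_left hl
          rw [hord l] at h2
          omega
        have hcl0 : c l0 ≠ 0 := hcne l0 (by rw [hf'l0]; exact one_ne_zero)
        refine ⟨c, b, ?_, j, l0, hcne j (hf1 j hj), hcl0, ?_⟩
        · intro t ht
          refine ⟨Function.ne_iff.2 ⟨l0, mul_ne_zero hcl0 (zpow_ne_zero _ ht)⟩, ?_, ?_⟩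
          · intro m hm
            exact absurd hm (Set.notMem_empty m)
          · intro i
            apply eval_laurent_zero _ _ _ _ ht
            intro v
            have h1 := hQb i b (fun q hq => hbQ q (hQ' i q hq)) v
            have h2 := hred (sub (F i) ((F i).support.filter fun α => ∑ j, (α j : ℤ) * b j = v))
            rw [h1, zero_sub] at h2
            have h3 := h2.neg
            rw [neg_neg] at h3
            exact const_zero P h3
        · rw [hb0 l0 (Finset.mem_insert_self _ _)]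
          exact hbj
  refine (pht_le f hl0).trans ?_
  have h1 : ∀ j, f j / f l0 = f' j := by
    intro j
    rw [hf']
    simp only
    rw [div_eq_inv_mul]
  rw [Finset.sum_congr rfl fun j _ => congrArg (hgt k) (h1 j)]
  refine (Finset.sum_le_sum fun j _ => hcoord j).trans ?_
  rw [Finset.sum_const, nsmul_eq_mul, Finset.card_univ, Fintype.card_fin]
  push_cast
  exact le_of_eq (by ring)


end Pool.Agent.Y221.AH
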