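import Pool.Agent.W603.PV.Disc

/-!
The fundamental identity for the places over a place of a function field of one variable.
-/

set_option autoImplicit false
set_option maxHeartbeats 400000
set_option linter.overlappingInstances false
set_option linter.unusedSectionVars false

open FF Pool.Agent.W603.LV Pool.Agent.W603.PV

namespace Pool.Agent.Y221.AH

section dvr

variable {k K : Type} [Field k] [Field K] [Algebra k K] (v : Place k K)

theorem isPrincipal_O (I : Ideal v.O) : I.IsPrincipal := by
  classical
  by_cases hI : I = ⊥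
  · rw [hI]
    exact bot_isPrincipal
  · -- an element of minimal order
    have hex : ∃ n : ℕ, ∃ a ∈ I, (a : K) ≠ 0 ∧ v.ord (a : K) = n := by
      obtain ⟨a, haI, ha0⟩ := Submodule.exists_mem_ne_zero_of_ne_bot hI
      have ha0' : (a : K) ≠ 0 := fun h => ha0 (Subtype.ext h)
      have h1 := (v.reg_iff ha0').1 a.2
      exact ⟨(v.ord (a : K)).toNat, a, haI, ha0', by omega⟩
    obtain ⟨a, haI, ha0, ha⟩ := Nat.find_spec hex
    have hmin := fun m (h : m < Nat.find hex) => Nat.find_min hex h
    refine ⟨a, le_antisymm ?_ ?_⟩
    · intro b hb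
      rw [Submodule.mem_span_singleton]
      by_cases hb0 : (b : K) = 0
      · exact ⟨0, by rw [zero_smul]; exact (Subtype.ext hb0).symm⟩
      · have hb1 := (v.reg_iff hb0).1 b.2
        have hle : v.ord (a : K) ≤ v.ord (b : K) := by
          by_contra hlt
          push Not at hlt
          exact hmin (v.ord (b : K)).toNat (by omega) ⟨b, hb, hb0, by omega⟩
        have hreg : v.Reg ((b : K) / a) := Or.inr (by rw [v.ord_div hb0 ha0]; omega)
        refine ⟨⟨(b : K) / a, hreg⟩, Subtype.ext ?_⟩
        change (b : K) / a * a = b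
        field_simp
    · rw [Submodule.span_le, Set.singleton_subset_iff]
      exact haI

instance isPID_O : IsPrincipalIdealRing v.O := ⟨isPrincipal_O v⟩

noncomputable instance alg_O : Algebra k v.O :=
  ((algebraMap k K).codRestrict v.O.toSubring fun c => v.reg_const c).toAlgebra

theorem algebraMap_O (c : k) : ((algebraMap k v.O c : v.O) : K) = algebraMap k K c := rfl

instance tower_O : IsScalarTower k v.O K := IsScalarTower.of_algebraMap_eq fun _ => rfl

end dvr

variable {k K L : Type} [Field k] [Field K] [Field L] [Algebra k K] [Algebra k L] [Algebra K L]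
  [IsScalarTower k K L] [IsAlgClosed k] [CharZero k] [IsFF k K] [IsFF k L]
  [FiniteDimensional K L]

/-- a place over `v` -/
theorem under_iff (v : Place k K) {t : K} (ht : v.ord t = 1) (w : Place k L) :
    under K w = v ↔ (∀ a : K, v.Reg a → w.Reg (algebraMap K L a)) ∧
      0 < w.ord (algebraMap K L t) := by
  have ht0 : t ≠ 0 := by
    rintro rfl
    rw [v.ord_zero] at ht
    omega
  constructor
  · rintro rfl
    constructor
    · rintro a (rfl | ha)
      · rw [map_zero]
        exact w.reg_zero
      · right
        rw [ord_under]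
        positivity
    · rw [ord_under, ht, mul_one]
      exact_mod_cast (ram_spec (F := K) w).1
  · rintro ⟨h1, h2⟩
    symm
    apply Place.eq_of_le
    intro a ha0 ha
    rcases h1 a (Or.inr ha) with h3 | h3
    · exact absurd ((_root_.map_eq_zero _).1 h3) ha0
    · rw [ord_under] at h3
      have h4 := (ram_spec (F := K) w).1
      by_contra hneg
      push Not at hneg
      have h5 : (ram K w : ℤ) * (under K w).ord a < 0 :=
        mul_neg_of_pos_of_neg (by exact_mod_cast h4) hneg
      omega

/-- **The fundamental identity.** -/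
theorem sum_ram (v : Place k K) : ∃ S : Finset (Place k L), (∀ w, w ∈ S ↔ under K w = v) ∧
    ∑ w ∈ S, (ram K w : ℤ) = Module.finrank K L := by
  classical
  obtain ⟨t, ht0, ht⟩ := v.surj
  have hK : CharZero K := charZero_of_injective_algebraMap (algebraMap k K).injective
  have hsep : Algebra.IsSeparable K L := inferInstance
  let π : v.O := ⟨t, Or.inr (by omega)⟩
  have hπ : π ≠ 0 := fun h => ht0 (congrArg Subtype.val h)
  let _ : Algebra v.O L := ((algebraMap K L).comp v.O.subtype).toAlgebra
  have hst : IsScalarTower v.O K L := IsScalarTower.of_algebraMap_eq fun _ => rfl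
  have hst2 : IsScalarTower k v.O L := IsScalarTower.of_algebraMap_eq fun c => by
    change algebraMap k L c = algebraMap K L (algebraMap k K c)
    rw [← IsScalarTower.algebraMap_apply]
  have hmax : (Ideal.span {π}).IsMaximal := by
    have h1 : Ideal.span {π} = IsLocalRing.maximalIdeal v.O := by
      apply le_antisymm
      · rw [Ideal.span_le, Set.singleton_subset_iff]
        rw [SetLike.mem_coe, IsLocalRing.mem_maximalIdeal, mem_nonunits_iff, v.isUnit_O_iff]
        rintro ⟨-, h⟩
        omega
      · intro a ha
        rw [IsLocalRing.mem_maximalIdeal, mem_nonunits_iff] at ha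
        rw [Ideal.mem_span_singleton']
        by_cases ha0 : (a : K) = 0
        · exact ⟨0, by rw [zero_mul]; exact (Subtype.ext ha0).symm⟩
        · have h2 : ¬ ((a : K) ≠ 0 ∧ v.ord (a : K) = 0) := by
            rw [← v.isUnit_O_iff a.2]
            exact ha
          have h3 := (v.reg_iff ha0).1 a.2
          have h4 : 1 ≤ v.ord (a : K) := by
            by_contra hc
            exact h2 ⟨ha0, by omega⟩
          refine ⟨⟨(a : K) / t, Or.inr (by rw [v.ord_div ha0 ht0]; omega)⟩, Subtype.ext ?_⟩
          change (a : K) / t * t = a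
          field_simp
    rw [h1]
    infer_instance
  obtain ⟨S, hS1, hS2, hS3⟩ := FF.fundamental (k := k) (A := v.O) (L := L) K π hπ hmax
  have hS : ∀ w, w ∈ S ↔ under K w = v := by
    intro w
    rw [hS1, under_iff v ht]
    constructor
    · rintro ⟨h1, h2⟩
      exact ⟨fun a ha => h1 ⟨a, ha⟩, h2⟩
    · rintro ⟨h1, h2⟩
      exact ⟨fun a => h1 a.1 a.2, h2⟩
  refine ⟨S, hS, ?_⟩
  rw [← hS3]
  push_cast
  refine Finset.sum_congr rfl fun w hw => ?_
  have h1 : w.ord (algebraMap v.O L π) = ram K w := by
    change w.ord (algebraMap K L t) = _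
    rw [ord_under, (hS w).1 hw, ht, mul_one]
  have h2 : w.relf v.O = 1 := by
    have h3 : Function.Surjective (algebraMap k w.RF) := by
      have h4 := hS2 w hw
      exact (IsAlgClosed.algebraMap_bijective_of_isIntegral (k := k) (K := w.RF)).2
    unfold Place.relf
    have h5 : Subfield.closure (Set.range fun a : v.O => w.red (algebraMap v.O L a)) = ⊤ := by
      rw [_root_.eq_top_iff]
      intro x _
      obtain ⟨c, rfl⟩ := h3 x
      apply Subfield.subset_closure
      refine ⟨algebraMap k v.O c, ?_⟩
      change w.red (algebraMap K L (algebraMap k K c)) = algebraMap k w.RF c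
      rw [← IsScalarTower.algebraMap_apply]
      rfl
    rw [h5]
    exact (finrank_eq_one_iff_of_nonzero' (1 : w.RF) one_ne_zero).2 fun x =>
      ⟨⟨x, trivial⟩, by rw [Subfield.smul_def, smul_eq_mul, mul_one]⟩
  rw [h1, h2]
  simp

/-- sums over the places of an extension -/
theorem sum_over (a : Place k K → ℤ) (T : Finset (Place k K)) (ha : ∀ v, a v ≠ 0 → v ∈ T)
    (T' : Finset (Place k L)) (hT' : ∀ w, under K w ∈ T → w ∈ T') :
    ∑ w ∈ T', (ram K w : ℤ) * a (under K w) = Module.finrank K L * ∑ v ∈ T, a v := by
  classical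
  have h1 : ∑ w ∈ T', (ram K w : ℤ) * a (under K w) =
      ∑ w ∈ T'.filter (fun w => under K w ∈ T), (ram K w : ℤ) * a (under K w) := by
    rw [Finset.sum_filter]
    refine Finset.sum_congr rfl fun w _ => ?_
    split_ifs with h
    · rfl
    · have h2 : a (under K w) = 0 := by
        by_contra hne
        exact h (ha _ hne)
      rw [h2, mul_zero]
  rw [h1, ← Finset.sum_fiberwise_of_maps_to (s := T'.filter fun w => under K w ∈ T) (t := T)
    (g := fun w => under K w) (fun w hw => (Finset.mem_filter.1 hw).2), Finset.mul_sum]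
  refine Finset.sum_congr rfl fun v hv => ?_
  obtain ⟨S, hS, hSs⟩ := sum_ram (L := L) v
  rw [← hSs, Finset.sum_mul]
  have h2 : (T'.filter fun w => under K w ∈ T).filter (fun w => under K w = v) = S := by
    ext w
    rw [Finset.mem_filter, Finset.mem_filter, hS]
    constructor
    · exact fun h => h.2
    · intro h
      exact ⟨⟨hT' w (by rw [h]; exact hv), by rw [h]; exact hv⟩, h⟩
  rw [h2]
  refine Finset.sum_congr rfl fun w hw => ?_
  rw [(hS w).1 hw]

end Pool.Agent.Y221.AH
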